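import Mathlib

/-!
Elementary asymptotics: a positive sequence of order `n ^ 4`.
-/

set_option autoImplicit false

namespace Pool.Agent.U211.DG

open Filter Topology

/-- `F n ≍ G n`: there are `c₁, c₂, c₃ > 0` with `c₁ F(n) ≤ G(n) ≤ c₂ F(n)` for all `n ≥ c₃`. -/
def SameGrowth (F G : ℕ → ℝ) : Prop :=
  ∃ c₁ c₂ c₃ : ℝ, 0 < c₁ ∧ 0 < c₂ ∧ 0 < c₃ ∧
    ∀ n : ℕ, c₃ ≤ (n : ℝ) → c₁ * F n ≤ G n ∧ G n ≤ c₂ * F n

variable {G : ℕ → ℝ}

lemma log_div_self : Tendsto (fun n : ℕ => Real.log (n : ℝ) / n) atTop (𝓝 0) :=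
  (Real.isLittleO_log_id_atTop.tendsto_div_nhds_zero).comp tendsto_natCast_atTop_atTop

/-- the growth rate -/
lemma tendsto_root {a b : ℝ} (ha : 0 < a) (hb : 0 < b)
    (h : ∀ n : ℕ, 1 ≤ n → a * (n : ℝ) ^ 4 ≤ G n ∧ G n ≤ b * (n : ℝ) ^ 4) :
    Tendsto (fun n : ℕ => G n ^ ((1 : ℝ) / n)) atTop (𝓝 1) := by
  have key : ∀ c : ℝ, 0 < c →
      Tendsto (fun n : ℕ => (c * (n : ℝ) ^ 4) ^ ((1 : ℝ) / n)) atTop (𝓝 1) := by
    intro c hc
    have h1 : Tendsto (fun n : ℕ => Real.exp (Real.log c / n + 4 * (Real.log (n : ℝ) / n)))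
        atTop (𝓝 (Real.exp (0 + 4 * 0))) :=
      (Real.continuous_exp.tendsto _).comp
        ((tendsto_const_nhds.div_atTop tendsto_natCast_atTop_atTop).add
          (log_div_self.const_mul 4))
    rw [mul_zero, add_zero, Real.exp_zero] at h1
    refine h1.congr' ?_
    filter_upwards [eventually_ge_atTop 1] with n hn
    have hn0 : (0 : ℝ) < n := by exact_mod_cast hn
    rw [Real.rpow_def_of_pos (by positivity), Real.log_mul hc.ne' (by positivity), Real.log_pow]
    congr 1
    push_cast
    field_simp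
  refine tendsto_of_tendsto_of_tendsto_of_le_of_le' (key a ha) (key b hb) ?_ ?_
  · filter_upwards [eventually_ge_atTop 1] with n hn
    have hn0 : (0 : ℝ) < n := by exact_mod_cast hn
    exact Real.rpow_le_rpow (by positivity) (h n hn).1 (by positivity)
  · filter_upwards [eventually_ge_atTop 1] with n hn
    have hn0 : (0 : ℝ) < n := by exact_mod_cast hn
    have h0 : 0 < a * (n : ℝ) ^ 4 := by positivity
    exact Real.rpow_le_rpow (h0.le.trans (h n hn).1) (h n hn).2 (by positivity)

/-- the only order of growth -/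
lemma growth_unique {a b : ℝ} (ha : 0 < a) (hb : 0 < b)
    (h : ∀ n : ℕ, 1 ≤ n → a * (n : ℝ) ^ 4 ≤ G n ∧ G n ≤ b * (n : ℝ) ^ 4) (l δ : ℝ) :
    SameGrowth (fun n => (n : ℝ) ^ l * δ ^ n) G ↔ l = 4 ∧ δ = 1 := by
  constructor
  · rintro ⟨c1, c2, c3, h1, h2, h3, hc⟩
    obtain ⟨N, hN⟩ := exists_nat_ge (max c3 3)
    have hNc : ∀ n ≥ N, c3 ≤ (n : ℝ) ∧ (3 : ℝ) ≤ n := fun n hn => by
      have : (N : ℝ) ≤ n := by exact_mod_cast hn
      exact ⟨(le_max_left _ _).trans (hN.trans this), (le_max_right _ _).trans (hN.trans this)⟩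
    have hn1 : ∀ n ≥ N, 1 ≤ n := fun n hn => by
      have := (hNc n hn).2
      have h4 : (1 : ℝ) ≤ n := by linarith
      exact_mod_cast h4
    have hpos : ∀ n ≥ N, 0 < δ ^ n := by
      intro n hn
      have hn0 : (0 : ℝ) < n := by have := (hNc n hn).2; linarith
      have e1 := (h n (hn1 n hn)).1
      have e2 := (hc n (hNc n hn).1).2
      have e3 : 0 < c2 * ((n : ℝ) ^ l * δ ^ n) := lt_of_lt_of_le (by positivity) (e1.trans e2)
      have e4 := (mul_pos_iff_of_pos_left h2).mp e3
      exact (mul_pos_iff_of_pos_left (Real.rpow_pos_of_pos hn0 l)).mp e4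
    have hδ : 0 < δ := by
      by_contra hneg
      push Not at hneg
      have e1 := hpos (2 * N + 1) (by omega)
      have e2 : δ ^ (2 * N + 1) ≤ 0 := by
        rw [pow_succ, pow_mul]
        exact mul_nonpos_of_nonneg_of_nonpos (by positivity) hneg
      linarith
    -- the logarithm of the quotient is bounded
    let D : ℕ → ℝ := fun n => n * Real.log δ + (l - 4) * Real.log n
    set B := |Real.log c1| + |Real.log c2| + |Real.log a| + |Real.log b| with hB
    have hD : ∀ n ≥ N, |D n| ≤ B := by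
      intro n hn
      have hn0 : (0 : ℝ) < n := by have := (hNc n hn).2; linarith
      have hF : 0 < (n : ℝ) ^ l * δ ^ n := mul_pos (Real.rpow_pos_of_pos hn0 l) (hpos n hn)
      have hM : 0 < (n : ℝ) ^ 4 := by positivity
      have e1 : Real.log ((n : ℝ) ^ l * δ ^ n) = l * Real.log n + n * Real.log δ := by
        rw [Real.log_mul (Real.rpow_pos_of_pos hn0 l).ne' (hpos n hn).ne', Real.log_rpow hn0,
          Real.log_pow]
      have e2 : Real.log ((n : ℝ) ^ 4) = 4 * Real.log n := by
        rw [Real.log_pow]; norm_num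
      have f1 := Real.log_le_log (mul_pos ha hM)
        ((h n (hn1 n hn)).1.trans (hc n (hNc n hn).1).2)
      have f2 := Real.log_le_log (mul_pos h1 hF)
        ((hc n (hNc n hn).1).1.trans (h n (hn1 n hn)).2)
      rw [Real.log_mul ha.ne' hM.ne', Real.log_mul h2.ne' hF.ne', e1, e2] at f1
      rw [Real.log_mul h1.ne' hF.ne', Real.log_mul hb.ne' hM.ne', e1, e2] at f2
      have p1 := neg_abs_le (Real.log a)
      have p2 := le_abs_self (Real.log b)
      have p3 := neg_abs_le (Real.log c1)
      have p4 := le_abs_self (Real.log c2)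
      have q1 := abs_nonneg (Real.log a)
      have q2 := abs_nonneg (Real.log b)
      have q3 := abs_nonneg (Real.log c1)
      have q4 := abs_nonneg (Real.log c2)
      rw [abs_le]
      constructor <;> simp only [D] <;> linarith
    have hnat := tendsto_natCast_atTop_atTop (R := ℝ)
    have hlog : Tendsto (fun n : ℕ => Real.log (n : ℝ)) atTop atTop :=
      Real.tendsto_log_atTop.comp hnat
    have s1 : Tendsto (fun n : ℕ => D n / n) atTop (𝓝 (Real.log δ)) := by
      have g1 : Tendsto (fun n : ℕ => Real.log δ + (l - 4) * (Real.log (n : ℝ) / n)) atTop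
          (𝓝 (Real.log δ + (l - 4) * 0)) := tendsto_const_nhds.add (log_div_self.const_mul _)
      rw [mul_zero, add_zero] at g1
      refine g1.congr' ?_
      filter_upwards [eventually_ge_atTop N] with n hn
      have hn0 : (n : ℝ) ≠ 0 := by have := (hNc n hn).2; linarith
      simp only [D]
      field_simp
    have s2 : Tendsto (fun n : ℕ => D n / n) atTop (𝓝 0) := by
      refine squeeze_zero_norm' ?_ (tendsto_const_nhds.div_atTop hnat : Tendsto
        (fun n : ℕ => B / (n : ℝ)) atTop (𝓝 0))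
      filter_upwards [eventually_ge_atTop N] with n hn
      have hn0 : (0 : ℝ) < n := by have := (hNc n hn).2; linarith
      rw [Real.norm_eq_abs, abs_div, abs_of_pos hn0]
      exact div_le_div_of_nonneg_right (hD n hn) hn0.le
    have hL : Real.log δ = 0 := tendsto_nhds_unique s1 s2
    have hδ1 : δ = 1 := Real.eq_one_of_pos_of_log_eq_zero hδ hL
    have s3 : Tendsto (fun n : ℕ => D n / Real.log n) atTop (𝓝 (l - 4)) := by
      refine tendsto_const_nhds.congr' ?_
      filter_upwards [eventually_ge_atTop N] with n hn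
      have hl0 : Real.log (n : ℝ) ≠ 0 := by
        have := (hNc n hn).2
        exact (Real.log_pos (by linarith)).ne'
      simp only [D]
      rw [hL]
      field_simp
      ring
    have s4 : Tendsto (fun n : ℕ => D n / Real.log n) atTop (𝓝 0) := by
      refine squeeze_zero_norm' ?_ (tendsto_const_nhds.div_atTop hlog : Tendsto
        (fun n : ℕ => B / Real.log (n : ℝ)) atTop (𝓝 0))
      filter_upwards [eventually_ge_atTop N] with n hn
      have hl0 : 0 < Real.log (n : ℝ) := by
        have := (hNc n hn).2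
        exact Real.log_pos (by linarith)
      rw [Real.norm_eq_abs, abs_div, abs_of_pos hl0]
      exact div_le_div_of_nonneg_right (hD n hn) hl0.le
    have hfin : l - 4 = 0 := tendsto_nhds_unique s3 s4
    exact ⟨by linarith, hδ1⟩
  · rintro ⟨rfl, rfl⟩
    refine ⟨a, b, 1, ha, hb, one_pos, fun n hn => ?_⟩
    have hn1 : 1 ≤ n := by exact_mod_cast hn
    have e : (n : ℝ) ^ (4 : ℝ) = (n : ℝ) ^ 4 := by
      rw [← Real.rpow_natCast]; norm_num
    simp only [one_pow, mul_one, e]
    exact h n hn1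

end Pool.Agent.U211.DG
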