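import Mathlib

/-!
Heights of elements of degree zero of the fraction field of `K[X_0, …, X_m]`.
-/

set_option autoImplicit false

namespace Pool.Agent.U211.DG

open MvPolynomial

/-! ### factors of homogeneous polynomials (as in `Pool.Agent.Helper259.RatMaps`) -/

section Factor

variable {σ K : Type*} [Field K]

/-- `X i ↦ t X i` -/
noncomputable def Φ (σ K : Type*) [Field K] : MvPolynomial σ K →ₐ[K] Polynomial (MvPolynomial σ K) :=
  aeval fun i => Polynomial.C (X i) * Polynomial.X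

lemma Φ_monomial (c : σ →₀ ℕ) (a : K) :
    Φ σ K (monomial c a) = Polynomial.C (monomial c a) * Polynomial.X ^ c.degree := by
  rw [Φ, aeval_monomial, monomial_eq, Finsupp.prod, Finsupp.prod, map_mul, map_prod]
  simp only [mul_pow, map_pow]
  rw [Finset.prod_mul_distrib, Finset.prod_pow_eq_pow_sum, Finsupp.degree_apply, ← mul_assoc]
  rfl

lemma Φ_coeff (p : MvPolynomial σ K) (j : ℕ) :
    (Φ σ K p).coeff j = homogeneousComponent j p := by
  induction p using MvPolynomial.induction_on' with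
  | monomial c a =>
    rw [Φ_monomial, Polynomial.coeff_C_mul_X_pow]
    rw [homogeneousComponent_of_mem (isHomogeneous_monomial a rfl)]
  | add p q hp hq => rw [map_add, Polynomial.coeff_add, hp, hq, map_add]

lemma Φ_homog {p : MvPolynomial σ K} {e : ℕ} (hp : p.IsHomogeneous e) :
    Φ σ K p = Polynomial.C p * Polynomial.X ^ e := by
  ext1 j
  rw [Φ_coeff, Polynomial.coeff_C_mul_X_pow, homogeneousComponent_of_mem hp]

lemma Φ_ne_zero {p : MvPolynomial σ K} (hp : p ≠ 0) : Φ σ K p ≠ 0 := by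
  intro h
  apply hp
  rw [← sum_homogeneousComponent p]
  apply Finset.sum_eq_zero
  intro j _
  rw [← Φ_coeff, h, Polynomial.coeff_zero]

/-- a factor of a nonzero homogeneous polynomial is homogeneous -/
lemma homog_of_mul {p q : MvPolynomial σ K} {D : ℕ} (h : (p * q).IsHomogeneous D)
    (h0 : p * q ≠ 0) : ∃ e, p.IsHomogeneous e ∧ q.IsHomogeneous (D - e) ∧ e ≤ D := by
  have hp0 : p ≠ 0 := left_ne_zero_of_mul h0
  have hq0 : q ≠ 0 := right_ne_zero_of_mul h0
  have hP := Φ_ne_zero hp0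
  have hQ := Φ_ne_zero hq0
  have h1 : Φ σ K p * Φ σ K q = Polynomial.C (p * q) * Polynomial.X ^ D := by
    rw [← map_mul, Φ_homog h]
  have hdeg : (Φ σ K p).natDegree + (Φ σ K q).natDegree = D := by
    rw [← Polynomial.natDegree_mul hP hQ, h1, Polynomial.natDegree_C_mul_X_pow _ _ h0]
  have htr : (Φ σ K p).natTrailingDegree + (Φ σ K q).natTrailingDegree = D := by
    rw [← Polynomial.natTrailingDegree_mul hP hQ, h1, Polynomial.C_mul_X_pow_eq_monomial,
      Polynomial.natTrailingDegree_monomial h0]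
  have hle1 := Polynomial.natTrailingDegree_le_natDegree (Φ σ K p)
  have hle2 := Polynomial.natTrailingDegree_le_natDegree (Φ σ K q)
  have key : ∀ r : MvPolynomial σ K, (Φ σ K r).natTrailingDegree = (Φ σ K r).natDegree →
      r.IsHomogeneous (Φ σ K r).natDegree := by
    intro r hr c hc
    have h2 : (Φ σ K r).coeff c.degree ≠ 0 := by
      rw [Φ_coeff]
      intro h
      have h5 := congrArg (coeff c) h
      rw [coeff_homogeneousComponent, if_pos rfl, coeff_zero] at h5
      exact hc h5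
    have h3 := Polynomial.natTrailingDegree_le_of_ne_zero h2
    have h4 := Polynomial.le_natDegree_of_ne_zero h2
    have h5 : Finsupp.weight 1 c = c.degree := by rw [Finsupp.degree_eq_weight_one]; rfl
    rw [h5]
    omega
  refine ⟨(Φ σ K p).natDegree, key p (by omega), ?_, by omega⟩
  have := key q (by omega)
  rwa [show (Φ σ K q).natDegree = D - (Φ σ K p).natDegree by omega] at this

/-- the degree of a factor is at most the degree of the product -/
lemma le_of_mul {p q : MvPolynomial σ K} {d D : ℕ} (hp : p.IsHomogeneous d)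
    (h : (p * q).IsHomogeneous D) (h0 : p * q ≠ 0) : d ≤ D := by
  obtain ⟨e, h1, -, h2⟩ := homog_of_mul h h0
  rwa [h1.inj_right hp (left_ne_zero_of_mul h0)] at h2

end Factor

/-! ### quotients of forms -/

variable {K : Type*} [Field K] {m : ℕ}

/-- the field of rational functions in `m + 1` variables -/
abbrev LL (K : Type*) [Field K] (m : ℕ) : Type _ := FractionRing (MvPolynomial (Fin (m + 1)) K)

/-- the inclusion of the polynomials -/
noncomputable abbrev inc (K : Type*) [Field K] (m : ℕ) : MvPolynomial (Fin (m + 1)) K →+* LL K m :=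
  algebraMap (MvPolynomial (Fin (m + 1)) K) (LL K m)

lemma inc_inj : Function.Injective (inc K m) := IsFractionRing.injective _ _

/-- `r = P / Q` with forms `P`, `Q` of degree `d`. -/
structure Rep (r : LL K m) (d : ℕ) (P Q : MvPolynomial (Fin (m + 1)) K) : Prop where
  hP : P.IsHomogeneous d
  hQ : Q.IsHomogeneous d
  ne : Q ≠ 0
  eq : r * inc K m Q = inc K m P

namespace Rep

variable {r s : LL K m} {d e : ℕ} {P Q P' Q' : MvPolynomial (Fin (m + 1)) K}

lemma inc_ne (h : Rep r d P Q) : inc K m Q ≠ 0 := fun h0 => h.ne (inc_inj (by rw [h0, map_zero]))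

lemma add (h : Rep r d P Q) (h' : Rep s e P' Q') :
    Rep (r + s) (d + e) (P * Q' + P' * Q) (Q * Q') where
  hP := (h.hP.mul h'.hQ).add (by rw [add_comm d e]; exact h'.hP.mul h.hQ)
  hQ := h.hQ.mul h'.hQ
  ne := mul_ne_zero h.ne h'.ne
  eq := by rw [map_mul, map_add, map_mul, map_mul, ← h.eq, ← h'.eq]; ring

lemma mul (h : Rep r d P Q) (h' : Rep s e P' Q') : Rep (r * s) (d + e) (P * P') (Q * Q') where
  hP := h.hP.mul h'.hP
  hQ := h.hQ.mul h'.hQ
  ne := mul_ne_zero h.ne h'.ne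
  eq := by rw [map_mul, map_mul, ← h.eq, ← h'.eq]; ring

lemma neg (h : Rep r d P Q) : Rep (-r) d (-P) Q where
  hP := h.hP.neg
  hQ := h.hQ
  ne := h.ne
  eq := by rw [map_neg, ← h.eq]; ring

lemma num_ne (h : Rep r d P Q) (hr : r ≠ 0) : P ≠ 0 := by
  rintro rfl
  have := h.eq
  rw [map_zero] at this
  rcases mul_eq_zero.mp this with h1 | h1
  · exact hr h1
  · exact h.inc_ne h1

lemma inv (h : Rep r d P Q) (hr : r ≠ 0) : Rep r⁻¹ d Q P where
  hP := h.hQ
  hQ := h.hP
  ne := h.num_ne hr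
  eq := by rw [← h.eq, inv_mul_cancel_left₀ hr]

lemma scale (h : Rep r d P Q) {R : MvPolynomial (Fin (m + 1)) K} (hR : R.IsHomogeneous e)
    (h0 : R ≠ 0) : Rep r (d + e) (P * R) (Q * R) where
  hP := h.hP.mul hR
  hQ := h.hQ.mul hR
  ne := mul_ne_zero h.ne h0
  eq := by rw [map_mul, map_mul, ← mul_assoc, h.eq]

lemma const (c : K) : Rep (inc K m (C c)) 0 (C c) 1 where
  hP := isHomogeneous_C _ _
  hQ := isHomogeneous_one _ _
  ne := one_ne_zero
  eq := by rw [map_one, mul_one]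

lemma zero : Rep (0 : LL K m) 0 0 1 where
  hP := isHomogeneous_zero _ _ _
  hQ := isHomogeneous_one _ _
  ne := one_ne_zero
  eq := by simp

lemma one : Rep (1 : LL K m) 0 1 1 where
  hP := isHomogeneous_one _ _
  hQ := isHomogeneous_one _ _
  ne := one_ne_zero
  eq := by simp

lemma natCast (n : ℕ) : Rep (n : LL K m) 0 (n : MvPolynomial (Fin (m + 1)) K) 1 where
  hP := by
    have := isHomogeneous_C (Fin (m + 1)) (n : K)
    simpa using this
  hQ := isHomogeneous_one _ _
  ne := one_ne_zero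
  eq := by simp

lemma var (i : Fin (m + 1)) : Rep (inc K m (X i) / inc K m (X 0)) 1 (X i) (X 0) where
  hP := isHomogeneous_X _ _
  hQ := isHomogeneous_X _ _
  ne := X_ne_zero _
  eq := by
    rw [div_mul_cancel₀]
    exact fun h0 => X_ne_zero (R := K) (0 : Fin (m + 1)) (inc_inj (by rw [h0, map_zero]))

/-- two representations -/
lemma cross (h : Rep r d P Q) (h' : Rep r e P' Q') : P * Q' = P' * Q := by
  apply inc_inj
  rw [map_mul, map_mul, ← h.eq, ← h'.eq]
  ring

lemma pow (h : Rep r d P Q) (n : ℕ) : Rep (r ^ n) (n * d) (P ^ n) (Q ^ n) where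
  hP := by
    have := h.hP.pow n
    rwa [mul_comm] at this
  hQ := by
    have := h.hQ.pow n
    rwa [mul_comm] at this
  ne := pow_ne_zero _ h.ne
  eq := by rw [map_pow, map_pow, ← h.eq, mul_pow]

end Rep

/-- `r` is a quotient of forms of degree `d`. -/
def HtLe (r : LL K m) (d : ℕ) : Prop := ∃ P Q, Rep r d P Q

/-- a quotient of two forms of degree `d` without common factor -/
structure Red (r : LL K m) (d : ℕ) (P Q : MvPolynomial (Fin (m + 1)) K) : Prop extends
    Rep r d P Q where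
  prime : IsRelPrime Q P

lemma Rep.exists_red {r : LL K m} {d : ℕ} {P Q : MvPolynomial (Fin (m + 1)) K}
    (h : Rep r d P Q) : ∃ e P' Q', e ≤ d ∧ Red r e P' Q' := by
  obtain ⟨a, b, c, hab, ha, hb⟩ := UniqueFactorizationMonoid.exists_reduced_factors Q h.ne P
  have hc : c ≠ 0 := by
    rintro rfl
    exact h.ne (by rw [← ha, zero_mul])
  have ha0 : a ≠ 0 := by
    rintro rfl
    exact h.ne (by rw [← ha, mul_zero])
  obtain ⟨e, h1, h2, h3⟩ := homog_of_mul (p := c) (q := a) (D := d)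
    (by rw [ha]; exact h.hQ) (by rw [ha]; exact h.ne)
  have hcK : inc K m c ≠ 0 := fun h0 => hc (inc_inj (by rw [h0, map_zero]))
  refine ⟨d - e, b, a, by omega, ⟨?_, h2, ha0, ?_⟩, hab⟩
  · by_cases hb0 : b = 0
    · rw [hb0]; exact isHomogeneous_zero _ _ _
    · obtain ⟨e', h1', h2', -⟩ := homog_of_mul (p := c) (q := b) (D := d)
        (by rw [hb]; exact h.hP) (mul_ne_zero hc hb0)
      rwa [h1'.inj_right h1 hc] at h2'
  · apply mul_left_cancel₀ hcK
    have := h.eq
    rw [← ha, ← hb, map_mul, map_mul] at this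
    rw [← this]
    ring

lemma Red.le {r : LL K m} {d e : ℕ} {P Q P' Q' : MvPolynomial (Fin (m + 1)) K}
    (h : Red r d P Q) (h' : Rep r e P' Q') : d ≤ e := by
  have hc := h.toRep.cross h'
  have hdvd : Q ∣ Q' := by
    have h1 : Q ∣ P * Q' := ⟨P', by rw [hc]; ring⟩
    exact h.prime.dvd_of_dvd_mul_left h1
  obtain ⟨H, rfl⟩ := hdvd
  exact le_of_mul h.hQ h'.hQ h'.ne

/-- the height of a quotient of forms -/
noncomputable def ht (r : LL K m) : ℕ := sInf {d | HtLe r d}

lemma Red.ht_eq {r : LL K m} {d : ℕ} {P Q : MvPolynomial (Fin (m + 1)) K} (h : Red r d P Q) :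
    ht r = d := by
  apply le_antisymm
  · exact Nat.sInf_le ⟨P, Q, h.toRep⟩
  · obtain ⟨P', Q', h'⟩ : HtLe r (ht r) := Nat.sInf_mem (s := {d | HtLe r d}) ⟨d, P, Q, h.toRep⟩
    exact h.le h'

lemma HtLe.ht_le {r : LL K m} {d : ℕ} (h : HtLe r d) : ht r ≤ d := Nat.sInf_le h

lemma HtLe.exists_red {r : LL K m} {d : ℕ} (h : HtLe r d) : ∃ P Q, Red r (ht r) P Q := by
  obtain ⟨P, Q, h⟩ := h
  obtain ⟨e, P', Q', -, h'⟩ := h.exists_red
  rw [h'.ht_eq]
  exact ⟨P', Q', h'⟩

/-- the field of the elements of degree zero -/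
def F0 (K : Type*) [Field K] (m : ℕ) : Subfield (LL K m) where
  carrier := {r | ∃ d, HtLe r d}
  mul_mem' := by
    rintro a b ⟨d, P, Q, h⟩ ⟨e, P', Q', h'⟩
    exact ⟨_, _, _, h.mul h'⟩
  one_mem' := ⟨0, _, _, Rep.one⟩
  add_mem' := by
    rintro a b ⟨d, P, Q, h⟩ ⟨e, P', Q', h'⟩
    exact ⟨_, _, _, h.add h'⟩
  zero_mem' := ⟨0, _, _, Rep.zero⟩
  neg_mem' := by
    rintro a ⟨d, P, Q, h⟩
    exact ⟨_, _, _, h.neg⟩
  inv_mem' := by
    rintro a ⟨d, P, Q, h⟩
    by_cases ha : a = 0
    · rw [ha, inv_zero]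
      exact ⟨0, _, _, Rep.zero⟩
    · exact ⟨_, _, _, h.inv ha⟩

/-- the field of the elements of degree zero -/
abbrev FF (K : Type*) [Field K] (m : ℕ) : Type _ := F0 K m

/-- the height of an element of degree zero -/
noncomputable def hh (r : FF K m) : ℕ := ht (r : LL K m)

lemma exists_red (r : FF K m) : ∃ P Q, Red (r : LL K m) (hh r) P Q := by
  obtain ⟨d, h⟩ := r.2
  exact h.exists_red

lemma Rep.hh_le {r : FF K m} {d : ℕ} {P Q : MvPolynomial (Fin (m + 1)) K}
    (h : Rep (r : LL K m) d P Q) : hh r ≤ d := HtLe.ht_le ⟨P, Q, h⟩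

lemma hh_add (r s : FF K m) : hh (r + s) ≤ hh r + hh s := by
  obtain ⟨P, Q, h⟩ := exists_red r
  obtain ⟨P', Q', h'⟩ := exists_red s
  exact Rep.hh_le (h.toRep.add h'.toRep)

lemma hh_mul (r s : FF K m) : hh (r * s) ≤ hh r + hh s := by
  obtain ⟨P, Q, h⟩ := exists_red r
  obtain ⟨P', Q', h'⟩ := exists_red s
  exact Rep.hh_le (h.toRep.mul h'.toRep)

lemma hh_neg (r : FF K m) : hh (-r) ≤ hh r := by
  obtain ⟨P, Q, h⟩ := exists_red r
  exact Rep.hh_le h.toRep.neg

lemma hh_sub (r s : FF K m) : hh (r - s) ≤ hh r + hh s := by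
  rw [sub_eq_add_neg]
  exact (hh_add _ _).trans (Nat.add_le_add_left (hh_neg s) _)

lemma hh_zero : hh (0 : FF K m) = 0 := Nat.le_zero.mp (Rep.hh_le (r := (0 : FF K m)) Rep.zero)

lemma hh_inv (r : FF K m) : hh r⁻¹ ≤ hh r := by
  by_cases hr : r = 0
  · rw [hr, inv_zero]
  · obtain ⟨P, Q, h⟩ := exists_red r
    refine Rep.hh_le (r := r⁻¹) (h.toRep.inv ?_)
    exact fun h0 => hr (Subtype.ext h0)

lemma hh_div (r s : FF K m) : hh (r / s) ≤ hh r + hh s := by
  rw [div_eq_mul_inv]
  exact (hh_mul _ _).trans (Nat.add_le_add_left (hh_inv s) _)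

lemma hh_natCast (n : ℕ) : hh (n : FF K m) = 0 :=
  Nat.le_zero.mp (Rep.hh_le (r := (n : FF K m)) (by
    have := Rep.natCast (K := K) (m := m) n
    simpa using this))

lemma hh_one : hh (1 : FF K m) = 0 := by simpa using hh_natCast (K := K) (m := m) 1

lemma hh_ofNat (n : ℕ) [n.AtLeastTwo] : hh (OfNat.ofNat n : FF K m) = 0 := hh_natCast n

lemma hh_pow (r : FF K m) (n : ℕ) : hh (r ^ n) = n * hh r := by
  obtain ⟨P, Q, h⟩ := exists_red r
  have h1 : Red ((r ^ n : FF K m) : LL K m) (n * hh r) (P ^ n) (Q ^ n) := by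
    refine ⟨?_, ?_⟩
    · rw [SubmonoidClass.coe_pow]
      exact h.toRep.pow n
    · exact h.prime.pow
  exact h1.ht_eq

end Pool.Agent.U211.DG
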