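import Mathlib
import Pool.Agent.H905R3.RatMap
import Pool.Agent.U211.DG.Ht

/-!
Rational self-maps of projective space with prescribed coordinate functions, and the degrees of
their iterates.
-/

set_option autoImplicit false

namespace Pool.Agent.U211.DG

open MvPolynomial
open Pool.Agent.H905R3

universe u

variable {K : Type u} [Field K] {m N : ℕ}

/-! ### reduction of a tuple of forms -/

/-- dividing a tuple of forms by the greatest common divisor -/
theorem exists_reduce {F : Fin (N + 1) → MvPolynomial (Fin (N + 1)) K} {D : ℕ}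
    (hF : ∀ i, (F i).IsHomogeneous D) (h0 : ∃ i, F i ≠ 0) :
    ∃ (g : RatMap K N) (c : MvPolynomial (Fin (N + 1)) K), c ≠ 0 ∧ ∀ i, F i = c * g.poly i := by
  classical
  let _ : NormalizedGCDMonoid (MvPolynomial (Fin (N + 1)) K) := Classical.choice inferInstance
  obtain ⟨g, hg, hg1⟩ := Finset.extract_gcd F (s := Finset.univ) ⟨0, Finset.mem_univ _⟩
  set G := Finset.univ.gcd F with hG
  obtain ⟨i0, hi0⟩ := h0
  have hG0 : G ≠ 0 := by
    intro h
    apply hi0
    rw [hg i0 (Finset.mem_univ _), h, zero_mul]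
  obtain ⟨e, hGe, -, heD⟩ : ∃ e, G.IsHomogeneous e ∧ (g i0).IsHomogeneous (D - e) ∧ e ≤ D :=
    homog_of_mul (by rw [← hg i0 (Finset.mem_univ _)]; exact hF i0)
      (by rw [← hg i0 (Finset.mem_univ _)]; exact hi0)
  have hghom : ∀ i, (g i).IsHomogeneous (D - e) := by
    intro i
    by_cases hi : g i = 0
    · rw [hi]; exact isHomogeneous_zero _ _ _
    · obtain ⟨e', h1, h2, -⟩ := homog_of_mul (p := G) (q := g i) (D := D)
        (by rw [← hg i (Finset.mem_univ _)]; exact hF i) (mul_ne_zero hG0 hi)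
      rwa [h1.inj_right hGe hG0] at h2
  have hcop : ∀ H : MvPolynomial (Fin (N + 1)) K, (∀ i, H ∣ g i) → IsUnit H := by
    intro H hH
    apply isUnit_of_dvd_one
    rw [← hg1]
    exact Finset.dvd_gcd fun i _ => hH i
  exact ⟨⟨g, D - e, hghom, hcop⟩, G, hG0, fun i => hg i (Finset.mem_univ _)⟩

/-- a tuple proportional to the coordinates of a rational map is a multiple of them -/
theorem exists_mul (g : RatMap K N) {G : Fin (N + 1) → MvPolynomial (Fin (N + 1)) K}
    (h : ∀ i j, G i * g.poly j = G j * g.poly i) :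
    ∃ H : MvPolynomial (Fin (N + 1)) K, ∀ j, G j = H * g.poly j := by
  classical
  let _ : NormalizedGCDMonoid (MvPolynomial (Fin (N + 1)) K) := Classical.choice inferInstance
  obtain ⟨i0, hi0⟩ := g.exists_ne_zero
  have hg1 : IsUnit (Finset.univ.gcd g.poly) :=
    g.reduced _ fun i => Finset.gcd_dvd (Finset.mem_univ i)
  have hdvd : g.poly i0 ∣ G i0 := by
    have h3 : g.poly i0 ∣ Finset.univ.gcd fun j => G i0 * g.poly j :=
      Finset.dvd_gcd fun j _ => ⟨G j, by rw [h i0 j]; ring⟩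
    have h4 := Finset.gcd_mul_left' Finset.univ g.poly (G i0)
    have h5 := h3.trans h4.dvd
    exact (hg1.dvd_mul_right).mp h5
  obtain ⟨H, hH⟩ := hdvd
  refine ⟨H, fun j => ?_⟩
  apply mul_right_cancel₀ hi0
  rw [← h i0 j, hH]
  ring

/-- the degree of a rational map is at most the degree of any tuple of forms representing it -/
theorem degree_le (g : RatMap K N) {G : Fin (N + 1) → MvPolynomial (Fin (N + 1)) K} {D : ℕ}
    (hG : ∀ i, (G i).IsHomogeneous D) (h0 : G 0 ≠ 0)
    (h : ∀ i j, G i * g.poly j = G j * g.poly i) : g.degree ≤ D := by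
  obtain ⟨H, hH⟩ := exists_mul g h
  have h1 : g.poly 0 * H ≠ 0 := by rw [mul_comm, ← hH 0]; exact h0
  exact le_of_mul (g.homogeneous 0) (by rw [mul_comm, ← hH 0]; exact hG 0) h1

/-! ### common denominators -/

/-- common denominator -/
noncomputable def comm (P Q : Fin N → MvPolynomial (Fin (m + 1)) K) :
    Fin (N + 1) → MvPolynomial (Fin (m + 1)) K :=
  Fin.cons (∏ i, Q i) (fun i => P i * ∏ j ∈ Finset.univ.erase i, Q j)

lemma comm_homog {P Q : Fin N → MvPolynomial (Fin (m + 1)) K} {d : Fin N → ℕ}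
    (hP : ∀ i, (P i).IsHomogeneous (d i)) (hQ : ∀ i, (Q i).IsHomogeneous (d i))
    (j : Fin (N + 1)) : (comm P Q j).IsHomogeneous (∑ i, d i) := by
  refine Fin.cases ?_ (fun j => ?_) j
  · simp only [comm, Fin.cons_zero]
    exact IsHomogeneous.prod _ _ _ fun i _ => hQ i
  · have h1 : (∏ i ∈ Finset.univ.erase j, Q i).IsHomogeneous (∑ i ∈ Finset.univ.erase j, d i) :=
      IsHomogeneous.prod _ _ _ fun i _ => hQ i
    have h2 := (hP j).mul h1
    rw [Finset.add_sum_erase _ _ (Finset.mem_univ j)] at h2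
    simpa only [comm, Fin.cons_succ] using h2

lemma comm_ne {P Q : Fin N → MvPolynomial (Fin (m + 1)) K} (hQ : ∀ i, Q i ≠ 0) :
    comm P Q 0 ≠ 0 := by
  simp only [comm, Fin.cons_zero]
  exact Finset.prod_ne_zero_iff.mpr fun i _ => hQ i

lemma comm_map {R : Type*} [CommRing R] (φ : MvPolynomial (Fin (m + 1)) K →+* R)
    {P Q : Fin N → MvPolynomial (Fin (m + 1)) K} {c : Fin N → R}
    (h : ∀ i, c i * φ (Q i) = φ (P i)) (j : Fin (N + 1)) :
    φ (comm P Q j) = (Fin.cons 1 c : Fin (N + 1) → R) j * φ (comm P Q 0) := by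
  refine Fin.cases ?_ (fun j => ?_) j
  · simp
  · simp only [comm, Fin.cons_succ, Fin.cons_zero, map_mul]
    rw [← h j, mul_assoc, ← map_mul, Finset.mul_prod_erase _ _ (Finset.mem_univ j)]

lemma comm_map_ne {R : Type*} [CommRing R] [IsDomain R]
    (φ : MvPolynomial (Fin (m + 1)) K →+* R)
    {P Q : Fin N → MvPolynomial (Fin (m + 1)) K} (h : ∀ i, φ (Q i) ≠ 0) :
    φ (comm P Q 0) ≠ 0 := by
  simp only [comm, Fin.cons_zero, map_prod]
  exact Finset.prod_ne_zero_iff.mpr fun i _ => h i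

/-! ### evaluation -/

/-- the element `r` of degree zero is regular at the point `a` and has there the value `c` -/
def EvalsTo {M : Type*} [Field M] [Algebra K M] (a : Fin (m + 1) → M) (r : LL K m) (c : M) : Prop :=
  ∃ (d : ℕ) (P Q : MvPolynomial (Fin (m + 1)) K), Rep r d P Q ∧ aeval a Q ≠ 0 ∧
    c * aeval a Q = aeval a P

namespace EvalsTo

variable {M : Type*} [Field M] [Algebra K M] {a : Fin (m + 1) → M} {r s : LL K m} {c e : M}

lemma one : EvalsTo a (1 : LL K m) 1 := ⟨0, 1, 1, Rep.one, by simp, by simp⟩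

lemma add (hr : EvalsTo a r c) (hs : EvalsTo a s e) : EvalsTo a (r + s) (c + e) := by
  obtain ⟨d, p, q, h, h1, h2⟩ := hr
  obtain ⟨d', p', q', h', h1', h2'⟩ := hs
  refine ⟨_, _, _, h.add h', ?_, ?_⟩
  · rw [map_mul]; exact mul_ne_zero h1 h1'
  · rw [map_mul, map_add, map_mul, map_mul, ← h2, ← h2']; ring

lemma mul (hr : EvalsTo a r c) (hs : EvalsTo a s e) : EvalsTo a (r * s) (c * e) := by
  obtain ⟨d, p, q, h, h1, h2⟩ := hr
  obtain ⟨d', p', q', h', h1', h2'⟩ := hs
  refine ⟨_, _, _, h.mul h', ?_, ?_⟩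
  · rw [map_mul]; exact mul_ne_zero h1 h1'
  · rw [map_mul, map_mul, ← h2, ← h2']; ring

lemma neg (hr : EvalsTo a r c) : EvalsTo a (-r) (-c) := by
  obtain ⟨d, p, q, h, h1, h2⟩ := hr
  refine ⟨_, _, _, h.neg, h1, ?_⟩
  rw [map_neg, ← h2]; ring

lemma ne (hr : EvalsTo a r c) (hc : c ≠ 0) : r ≠ 0 := by
  obtain ⟨d, p, q, h, h1, h2⟩ := hr
  rintro rfl
  have h3 := h.eq
  rw [zero_mul] at h3
  have h4 : p = 0 := inc_inj (by rw [← h3, map_zero])
  rw [h4, map_zero] at h2
  exact mul_ne_zero hc h1 h2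

lemma inv (hr : EvalsTo a r c) (hc : c ≠ 0) : EvalsTo a r⁻¹ c⁻¹ := by
  have hr0 := hr.ne hc
  obtain ⟨d, p, q, h, h1, h2⟩ := hr
  refine ⟨_, _, _, h.inv hr0, ?_, ?_⟩
  · rw [← h2]; exact mul_ne_zero hc h1
  · rw [← h2, inv_mul_cancel_left₀ hc]

lemma var (i : Fin (m + 1)) (h0 : a 0 ≠ 0) :
    EvalsTo a (inc K m (X i) / inc K m (X 0)) (a i / a 0) := by
  refine ⟨_, _, _, Rep.var i, ?_, ?_⟩
  · rw [aeval_X]; exact h0
  · rw [aeval_X, aeval_X, div_mul_cancel₀ _ h0]

end EvalsTo

/-- **Rational maps with prescribed coordinate functions.** -/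
theorem exists_ratMap (r : Fin N → FF K N) : ∃ f : RatMap K N,
    ∀ (M : Type u) [Field M] [Algebra K M] (a : Fin (N + 1) → M) (c : Fin N → M),
      (∀ i, EvalsTo a (r i : LL K N) (c i)) →
      ∃ t : M, t ≠ 0 ∧ ∀ i, aeval a (f.poly i) = t * (Fin.cons 1 c : Fin (N + 1) → M) i := by
  choose P Q hR using fun i => Pool.Agent.U211.DG.exists_red (r i)
  have hF := fun j => comm_homog (fun i => (hR i).hP) (fun i => (hR i).hQ) j
  have hF0 : comm P Q 0 ≠ 0 := comm_ne fun i => (hR i).ne
  obtain ⟨f, c0, hc0, hf⟩ := exists_reduce hF ⟨0, hF0⟩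
  refine ⟨f, fun M _ _ a c hac => ?_⟩
  choose d P' Q' h1 h2 h3 using hac
  have e1 := comm_map (inc K N) (c := fun i => (r i : LL K N)) fun i => (hR i).eq
  have e2 := comm_map (inc K N) (c := fun i => (r i : LL K N)) fun i => (h1 i).eq
  have hcross : ∀ i j, comm P' Q' i * f.poly j = comm P' Q' j * f.poly i := by
    intro i j
    apply mul_left_cancel₀ hc0
    have e3 : ∀ i j, c0 * (comm P' Q' i * f.poly j) = comm P' Q' i * comm P Q j := by
      intro i j; rw [hf j]; ring
    rw [e3, e3]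
    apply inc_inj
    rw [map_mul, map_mul, e1 i, e1 j, e2 i, e2 j]
    ring
  obtain ⟨H, hH⟩ := exists_mul f hcross
  have e4 := comm_map (aeval a : MvPolynomial (Fin (N + 1)) K →ₐ[K] M).toRingHom h3
  have e5 : aeval a (comm P' Q' 0) ≠ 0 :=
    comm_map_ne (aeval a : MvPolynomial (Fin (N + 1)) K →ₐ[K] M).toRingHom h2
  have e6 : ∀ j, aeval a (comm P' Q' j) =
      (Fin.cons 1 c : Fin (N + 1) → M) j * aeval a (comm P' Q' 0) := e4
  have hHa : aeval a H ≠ 0 := by
    intro h0
    apply e5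
    rw [hH 0, map_mul, h0, zero_mul]
  refine ⟨aeval a (comm P' Q' 0) / aeval a H, div_ne_zero e5 hHa, fun i => ?_⟩
  have h7 := e6 i
  rw [hH i, map_mul] at h7
  field_simp
  rw [mul_comm, h7]
  ring

/-! ### orbits -/

/-- `c` is the image of `a` under `f` (with non-proportionality factor) -/
def Img {M : Type*} [Field M] [Algebra K M] (f : RatMap K N) (a c : Fin N → M) : Prop :=
  ∃ t : M, t ≠ 0 ∧ ∀ i, aeval (Fin.cons 1 a : Fin (N + 1) → M) (f.poly i) =
    t * (Fin.cons 1 c : Fin (N + 1) → M) i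

lemma orbit {M : Type*} [Field M] [Algebra K M] (f : RatMap K N) (a : ℕ → Fin N → M)
    (h : ∀ n, Img f (a n) (a (n + 1))) (n : ℕ) :
    ∃ t : M, t ≠ 0 ∧ ∀ i, aeval (Fin.cons 1 (a 0) : Fin (N + 1) → M) (f.subst n i) =
      t * (Fin.cons 1 (a n) : Fin (N + 1) → M) i := by
  induction n with
  | zero => exact ⟨1, one_ne_zero, fun i => by rw [RatMap.subst, aeval_X, one_mul]⟩
  | succ n ih =>
    obtain ⟨t, ht, h1⟩ := ih
    obtain ⟨s, hs, h2⟩ := h n
    refine ⟨t ^ f.degree * s, mul_ne_zero (pow_ne_zero _ ht) hs, fun i => ?_⟩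
    rw [RatMap.aeval_subst_succ, funext h1, aeval_smul_of_isHomogeneous (f.homogeneous i), h2]
    ring

/-- the forms of the `n`-fold substitution have degree `degree ^ n` -/
lemma subst_homog (f : RatMap K N) (n : ℕ) (i : Fin (N + 1)) :
    (f.subst n i).IsHomogeneous (f.degree ^ n) := by
  induction n generalizing i with
  | zero => simpa [RatMap.subst] using isHomogeneous_X K i
  | succ n ih =>
    have := (f.homogeneous i).aeval (f.subst n) ih
    rw [← pow_succ] at this
    exact this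

/-- existence of the iterates in reduced form -/
lemma exists_iterate {M : Type*} [Field M] [Algebra K M] (f : RatMap K N) (a : ℕ → Fin N → M)
    (h : ∀ n, Img f (a n) (a (n + 1))) (n : ℕ) : ∃ g : RatMap K N, f.IsIterate n g := by
  obtain ⟨t, ht, h1⟩ := orbit f a h n
  have h0 : f.subst n 0 ≠ 0 := by
    intro h2
    have := h1 0
    rw [h2, map_zero, Fin.cons_zero, mul_one] at this
    exact ht this.symm
  obtain ⟨g, c, hc, hg⟩ := exists_reduce (subst_homog f n) ⟨0, h0⟩
  exact ⟨g, c, hc, hg⟩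

lemma iterate_img {M : Type*} [Field M] [Algebra K M] (f : RatMap K N) (a : ℕ → Fin N → M)
    (h : ∀ n, Img f (a n) (a (n + 1))) {n : ℕ} {g : RatMap K N} (hg : f.IsIterate n g) :
    Img g (a 0) (a n) := by
  obtain ⟨t, ht, h1⟩ := orbit f a h n
  obtain ⟨c, hc, hcg⟩ := hg
  have hca : aeval (Fin.cons 1 (a 0) : Fin (N + 1) → M) c ≠ 0 := by
    intro h2
    have := h1 0
    rw [hcg 0, map_mul, h2, zero_mul, Fin.cons_zero, mul_one] at this
    exact ht this.symm
  refine ⟨t / aeval (Fin.cons 1 (a 0) : Fin (N + 1) → M) c, div_ne_zero ht hca, fun i => ?_⟩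
  have := h1 i
  rw [hcg i, map_mul] at this
  field_simp
  rw [← this]
  ring

/-- **lower bound for the degree**: the height of the image of a point with coordinates
in `K(X_0, …, X_m)` -/
theorem height_img (a : Fin N → FF K m) : ∃ e : ℕ, ∀ (g : RatMap K N) (c : Fin N → FF K m),
    Img g (fun i => (a i : LL K m)) (fun i => (c i : LL K m)) → ∀ i, hh (c i) ≤ e * g.degree := by
  choose P Q hR using fun i => Pool.Agent.U211.DG.exists_red (a i)
  refine ⟨∑ i, hh (a i), fun g c hg i => ?_⟩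
  obtain ⟨t, ht, h1⟩ := hg
  have hG := fun j => comm_homog (fun i => (hR i).hP) (fun i => (hR i).hQ) j
  have hG0 : inc K m (comm P Q 0) ≠ 0 := fun h0 =>
    comm_ne (fun i => (hR i).ne) (inc_inj (by rw [h0, map_zero]))
  have e1 := comm_map (inc K m) (c := fun i => (a i : LL K m)) fun i => (hR i).eq
  -- evaluate the forms of `g` at the tuple of forms
  have e2 : ∀ j, inc K m (aeval (comm P Q) (g.poly j)) =
      inc K m (comm P Q 0) ^ g.degree * t *
        (Fin.cons 1 (fun i => (c i : LL K m)) : Fin (N + 1) → LL K m) j := by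
    intro j
    have h2 : inc K m (aeval (comm P Q) (g.poly j)) =
        aeval (fun k => inc K m (comm P Q k)) (g.poly j) := by
      have := MvPolynomial.aeval_algebraMap_apply (LL K m) (comm P Q) (g.poly j)
      exact this.symm
    have h3 : (fun k => inc K m (comm P Q k)) = fun k => inc K m (comm P Q 0) *
        (Fin.cons 1 (fun i => (a i : LL K m)) : Fin (N + 1) → LL K m) k := by
      funext k; rw [e1 k, mul_comm]
    rw [h2, h3, aeval_smul_of_isHomogeneous (g.homogeneous j), h1 j]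
    ring
  refine Rep.hh_le (P := aeval (comm P Q) (g.poly i.succ)) (Q := aeval (comm P Q) (g.poly 0))
    ⟨(g.homogeneous _).aeval _ hG, (g.homogeneous _).aeval _ hG, ?_, ?_⟩
  · intro h0
    have := e2 0
    rw [h0, map_zero, Fin.cons_zero, mul_one] at this
    exact mul_ne_zero (pow_ne_zero _ hG0) ht this.symm
  · rw [e2, e2, Fin.cons_zero, Fin.cons_succ]
    ring

lemma var_mem (i : Fin (N + 1)) : inc K N (X i) / inc K N (X 0) ∈ F0 K N :=
  ⟨1, _, _, Rep.var i⟩

/-- the generic point -/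
noncomputable def gen (K : Type u) [Field K] (N : ℕ) (i : Fin N) : FF K N :=
  ⟨inc K N (X i.succ) / inc K N (X 0), var_mem _⟩

lemma incX0 : inc K N (X 0) ≠ 0 := fun h0 =>
  X_ne_zero (R := K) (0 : Fin (N + 1)) (inc_inj (by rw [h0, map_zero]))

lemma gen_coe (j : Fin (N + 1)) :
    (Fin.cons 1 (fun i => (gen K N i : LL K N)) : Fin (N + 1) → LL K N) j =
      (inc K N (X 0))⁻¹ * inc K N (X j) := by
  refine Fin.cases ?_ (fun j => ?_) j
  · rw [Fin.cons_zero, inv_mul_cancel₀ incX0]
  · rw [Fin.cons_succ, mul_comm, ← div_eq_mul_inv]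
    rfl

/-- **upper bound for the degree**: the heights of the coordinates of the generic image -/
theorem degree_le_of_img (g : RatMap K N) (c : Fin N → FF K N)
    (hg : Img g (fun i => (gen K N i : LL K N)) (fun i => (c i : LL K N))) :
    g.degree ≤ ∑ i, hh (c i) := by
  choose P Q hR using fun i => Pool.Agent.U211.DG.exists_red (c i)
  obtain ⟨t, ht, h1⟩ := hg
  have hG := fun j => comm_homog (fun i => (hR i).hP) (fun i => (hR i).hQ) j
  have e1 := comm_map (inc K N) (c := fun i => (c i : LL K N)) fun i => (hR i).eq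
  have e2 : ∀ j, (inc K N (X 0))⁻¹ ^ g.degree * inc K N (g.poly j) =
      t * (Fin.cons 1 (fun i => (c i : LL K N)) : Fin (N + 1) → LL K N) j := by
    intro j
    rw [← h1 j, funext gen_coe, aeval_smul_of_isHomogeneous (g.homogeneous j)]
    congr 1
    have := MvPolynomial.aeval_algebraMap_apply (LL K N)
      (X : Fin (N + 1) → MvPolynomial (Fin (N + 1)) K) (g.poly j)
    rw [aeval_X_left_apply] at this
    exact this.symm
  have hX : (inc K N (X 0))⁻¹ ^ g.degree ≠ 0 := pow_ne_zero _ (inv_ne_zero incX0)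
  refine degree_le g hG (comm_ne fun i => (hR i).ne) fun i j => ?_
  apply inc_inj
  apply mul_left_cancel₀ hX
  rw [map_mul, map_mul, e1 i, e1 j]
  linear_combination (Fin.cons 1 (fun i => (c i : LL K N)) : Fin (N + 1) → LL K N) i *
    inc K N (comm P Q 0) * e2 j - (Fin.cons 1 (fun i => (c i : LL K N)) : Fin (N + 1) → LL K N) j *
    inc K N (comm P Q 0) * e2 i

end Pool.Agent.U211.DG
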