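import Mathlib
import Pool.Agent.U211.DG.RM

/-!
A rational self-map with a generic value is dominant.
-/

set_option autoImplicit false

namespace Pool.Agent.U211.DG

open MvPolynomial
open Pool.Agent.H905R3

universe u

variable {K : Type u} [Field K] {N : ℕ}

/-- if the generic point is a value of `f` then `f` is dominant -/
theorem dominant_of_img (f : RatMap K N) (hd : f.degree ≠ 0) (c : Fin N → FF K N)
    (h : Img f (fun i => (c i : LL K N)) (fun i => (gen K N i : LL K N))) : f.Dominant := by
  obtain ⟨t, ht, h1⟩ := h
  rw [RatMap.Dominant, algebraicIndependent_iff_injective_aeval, injective_iff_map_eq_zero]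
  intro G hG
  by_contra hne
  -- the point scaled by a variable
  set a : Fin (N + 1) → LL K N := Fin.cons 1 (fun i => (c i : LL K N)) with ha
  have e0 : aeval (fun j => (Polynomial.X : Polynomial (LL K N)) * Polynomial.C (a j))
      (aeval f.poly G) = 0 := by rw [hG, map_zero]
  have e1 : ∀ i, aeval (fun j => (Polynomial.X : Polynomial (LL K N)) * Polynomial.C (a j))
      (f.poly i) = Polynomial.C (inc K N (X i)) *
        (Polynomial.C (t * (inc K N (X 0))⁻¹) * Polynomial.X ^ f.degree) := by
    intro i
    rw [aeval_smul_of_isHomogeneous (f.homogeneous i)]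
    have e2 : aeval (fun j => Polynomial.C (a j)) (f.poly i) =
        (Polynomial.C (aeval a (f.poly i)) : Polynomial (LL K N)) := by
      have := MvPolynomial.aeval_algebraMap_apply (Polynomial (LL K N)) a (f.poly i)
      exact this
    rw [e2, h1 i, gen_coe]
    simp only [map_mul]
    ring
  rw [comp_aeval_apply] at e0
  rw [funext e1] at e0
  -- compare with the polynomial `G (t X)`
  set q : Polynomial (LL K N) :=
    Polynomial.C (t * (inc K N (X 0))⁻¹) * Polynomial.X ^ f.degree with hq
  have e3 : ∀ G : MvPolynomial (Fin (N + 1)) K,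
      aeval (fun i => Polynomial.C (inc K N (X i)) * q) G =
      ((Φ (Fin (N + 1)) K G).map (inc K N)).comp q := by
    intro G
    induction G using MvPolynomial.induction_on with
    | C a =>
      have h2 : Φ (Fin (N + 1)) K (C a) = Polynomial.C (C a) := by
        rw [Φ, aeval_C]; rfl
      rw [h2, aeval_C, Polynomial.map_C, Polynomial.C_comp]
      rfl
    | add p q hp hq => rw [map_add, map_add, Polynomial.map_add, Polynomial.add_comp, hp, hq]
    | mul_X p i hp =>
      have h2 : Φ (Fin (N + 1)) K (X i) = Polynomial.C (X i) * Polynomial.X := by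
        rw [Φ, aeval_X]
      rw [map_mul, map_mul, Polynomial.map_mul, Polynomial.mul_comp, hp, aeval_X, h2,
        Polynomial.map_mul, Polynomial.map_C, Polynomial.map_X, Polynomial.mul_comp,
        Polynomial.C_comp, Polynomial.X_comp]
  rw [e3] at e0
  have hq0 : t * (inc K N (X 0))⁻¹ ≠ 0 := mul_ne_zero ht (inv_ne_zero incX0)
  have hqd : q.natDegree ≠ 0 := by
    rw [hq, Polynomial.natDegree_C_mul_X_pow _ _ hq0]
    exact hd
  rcases Polynomial.comp_eq_zero_iff.mp e0 with h2 | ⟨-, h2⟩
  · apply Φ_ne_zero hne
    apply Polynomial.map_injective (inc K N) inc_inj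
    rw [h2, Polynomial.map_zero]
  · apply hqd
    rw [h2, Polynomial.natDegree_C]

end Pool.Agent.U211.DG
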