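import Mathlib
import Pool.Agent.U211.DG.Ht

/-!
The parallelogram inequality and the duplication formula for the heights of the abscissae.
-/

set_option autoImplicit false

namespace Pool.Agent.U211.DG

open MvPolynomial

variable {K : Type*} [Field K] {m : ℕ}

/-- `a ∣ G * a`, `a ∣ G * b`, `a ∣ G * c` and `gcd (a, b, c) = 1` give `a ∣ G`. -/
lemma dvd_of_triple {R : Type*} [CommRing R] [IsDomain R] [UniqueFactorizationMonoid R]
    {a b c G : R} (ha : a ≠ 0)
    (h : ∀ p : R, Prime p → p ∣ a → p ∣ b → p ∣ c → False)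
    (hb : a ∣ G * b) (hc : a ∣ G * c) : a ∣ G := by
  classical
  let _ : NormalizedGCDMonoid R := Classical.choice inferInstance
  set g := gcd b c with hg
  have h1 : a ∣ G * g := by
    have h2 : a ∣ gcd (G * b) (G * c) := dvd_gcd hb hc
    exact h2.trans (gcd_mul_left' G b c).dvd
  have h3 : IsRelPrime a g := by
    intro d hd1 hd2
    by_contra hu
    have hd0 : d ≠ 0 := by
      rintro rfl
      exact ha (zero_dvd_iff.mp hd1)
    obtain ⟨p, hp, hpd⟩ := WfDvdMonoid.exists_irreducible_factor hu hd0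
    exact h p hp.prime (hpd.trans hd1) ((hpd.trans hd2).trans (gcd_dvd_left _ _))
      ((hpd.trans hd2).trans (gcd_dvd_right _ _))
  exact h3.dvd_of_dvd_mul_right h1

/-- **Gauss's lemma**: the height of the pair `r`, `s` in terms of `r + s` and `r * s`. -/
lemma gauss {r s : LL K m} {d e D : ℕ} {P Q P' Q' G0 G1 G2 : MvPolynomial (Fin (m + 1)) K}
    (h : Red r d P Q) (h' : Red s e P' Q') (hG : G0.IsHomogeneous D) (hG0 : G0 ≠ 0)
    (h1 : (r + s) * inc K m G0 = inc K m G1) (h2 : r * s * inc K m G0 = inc K m G2) :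
    d + e ≤ D := by
  have ha0 : Q * Q' ≠ 0 := mul_ne_zero h.ne h'.ne
  have e1 := h.eq
  have e2 := h'.eq
  have c1 : G1 * (Q * Q') = G0 * (P * Q' + P' * Q) := by
    apply inc_inj
    rw [map_mul, map_mul, map_mul, map_add, map_mul, map_mul, ← h1, ← e1, ← e2]
    ring
  have c2 : G2 * (Q * Q') = G0 * (P * P') := by
    apply inc_inj
    rw [map_mul, map_mul, map_mul, map_mul, ← h2, ← e1, ← e2]
    ring
  have hdvd : Q * Q' ∣ G0 := by
    refine dvd_of_triple ha0 (b := P * Q' + P' * Q) (c := P * P') ?_ ⟨G1, by rw [← c1]; ring⟩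
      ⟨G2, by rw [← c2]; ring⟩
    intro p hp ha hb hc
    have key : ∀ {P Q P' Q' : MvPolynomial (Fin (m + 1)) K}, IsRelPrime Q P → IsRelPrime Q' P' →
        p ∣ Q → p ∣ P * Q' + P' * Q → p ∣ P * P' → False := by
      intro P Q P' Q' hPQ hPQ' hQ hb hc
      have hnP : ¬ p ∣ P := fun hP => hp.not_isUnit (hPQ hQ hP)
      have h3 : p ∣ P * Q' := (dvd_add_left (hQ.mul_left P')).mp hb
      have h4 : p ∣ Q' := (hp.dvd_or_dvd h3).resolve_left hnP
      have h5 : p ∣ P' := (hp.dvd_or_dvd hc).resolve_left hnP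
      exact hp.not_isUnit (hPQ' h4 h5)
    rcases hp.dvd_or_dvd ha with hQ | hQ'
    · exact key h.prime h'.prime hQ hb hc
    · exact key h'.prime h.prime hQ' (by rw [add_comm (P' * Q)]; exact hb) (by rw [mul_comm P']; exact hc)
  obtain ⟨H, rfl⟩ := hdvd
  exact le_of_mul (h.hQ.mul h'.hQ) hG hG0

/-- **The parallelogram inequality** for the abscissae on `Y ^ 2 = X ^ 3 + c` (up to twist). -/
lemma par_le {X1 X2 Xp Xm c : FF K m} (hne : X1 ≠ X2)
    (h1 : (Xp + Xm) * (X1 - X2) ^ 2 = 2 * X1 * X2 * (X1 + X2) + 4 * c)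
    (h2 : Xp * Xm * (X1 - X2) ^ 2 = (X1 * X2) ^ 2 - 4 * c * (X1 + X2)) :
    hh Xp + hh Xm ≤ 2 * hh X1 + 2 * hh X2 + hh c := by
  obtain ⟨P1, Q1, r1⟩ := exists_red X1
  obtain ⟨P2, Q2, r2⟩ := exists_red X2
  obtain ⟨P3, Q3, r3⟩ := exists_red c
  obtain ⟨P4, Q4, r4⟩ := exists_red Xp
  obtain ⟨P5, Q5, r5⟩ := exists_red Xm
  have e1 := r1.eq
  have e2 := r2.eq
  have e3 := r3.eq
  have h1' : ((Xp : LL K m) + Xm) * ((X1 : LL K m) - X2) ^ 2 =
      2 * X1 * X2 * (X1 + X2) + 4 * c := by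
    have := congrArg (F0 K m).subtype h1
    simpa only [map_mul, map_add, map_sub, map_pow, map_ofNat, Subfield.subtype_apply] using this
  have h2' : (Xp : LL K m) * Xm * ((X1 : LL K m) - X2) ^ 2 =
      (X1 * X2) ^ 2 - 4 * c * (X1 + X2) := by
    have := congrArg (F0 K m).subtype h2
    simpa only [map_mul, map_add, map_sub, map_pow, map_ofNat, Subfield.subtype_apply] using this
  have hD : (P1 * Q2 - P2 * Q1).IsHomogeneous (hh X1 + hh X2) :=
    (r1.hP.mul r2.hQ).sub (by rw [add_comm (hh X1)]; exact r2.hP.mul r1.hQ)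
  have hD0 : P1 * Q2 - P2 * Q1 ≠ 0 := by
    intro h0
    apply hne
    apply Subtype.ext
    have h3 : inc K m P1 * inc K m Q2 - inc K m P2 * inc K m Q1 = 0 := by
      rw [← map_mul, ← map_mul, ← map_sub, h0, map_zero]
    rw [← e1, ← e2] at h3
    have h4 : ((X1 : LL K m) - X2) * (inc K m Q1 * inc K m Q2) = 0 := by
      rw [← h3]; ring
    rcases mul_eq_zero.mp h4 with h5 | h5
    · exact sub_eq_zero.mp h5
    · exact absurd h5 (mul_ne_zero r1.inc_ne r2.inc_ne)
  refine gauss r4 r5 (G0 := (P1 * Q2 - P2 * Q1) ^ 2 * Q3)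
    (G1 := 2 * P1 * P2 * (P1 * Q2 + P2 * Q1) * Q3 + 4 * P3 * Q1 ^ 2 * Q2 ^ 2)
    (G2 := P1 ^ 2 * P2 ^ 2 * Q3 - 4 * P3 * (P1 * Q2 + P2 * Q1) * Q1 * Q2) ?_ ?_ ?_ ?_
  · have := (hD.pow 2).mul r3.hQ
    have e : (hh X1 + hh X2) * 2 + hh c = 2 * hh X1 + 2 * hh X2 + hh c := by ring
    rwa [e] at this
  · exact mul_ne_zero (pow_ne_zero _ hD0) r3.ne
  · simp only [map_mul, map_add, map_sub, map_pow, map_ofNat]
    rw [← e1, ← e2, ← e3]
    linear_combination (inc K m Q1) ^ 2 * (inc K m Q2) ^ 2 * (inc K m Q3) * h1'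
  · simp only [map_mul, map_add, map_sub, map_pow, map_ofNat]
    rw [← e1, ← e2, ← e3]
    linear_combination (inc K m Q1) ^ 2 * (inc K m Q2) ^ 2 * (inc K m Q3) * h2'

/-- duplication, upper bound -/
lemma dbl_le {X X2 c : FF K m} (hne : X ^ 3 + c ≠ 0) (h4 : (4 : FF K m) ≠ 0)
    (h : X2 * (4 * (X ^ 3 + c)) = X ^ 4 - 8 * c * X) : hh X2 ≤ 4 * hh X + hh c := by
  obtain ⟨P1, Q1, r1⟩ := exists_red X
  obtain ⟨P3, Q3, r3⟩ := exists_red c
  have e1 := r1.eq
  have e3 := r3.eq
  have h' : (X2 : LL K m) * (4 * ((X : LL K m) ^ 3 + c)) = (X : LL K m) ^ 4 - 8 * c * X := by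
    have := congrArg (F0 K m).subtype h
    simpa only [map_mul, map_add, map_sub, map_pow, map_ofNat, Subfield.subtype_apply] using this
  have hne' : (4 : LL K m) * ((X : LL K m) ^ 3 + c) ≠ 0 := by
    intro h0
    have h1 : (4 : FF K m) * (X ^ 3 + c) = 0 := by
      apply (F0 K m).subtype_injective
      simpa only [map_mul, map_add, map_sub, map_pow, map_ofNat, map_zero,
        Subfield.subtype_apply] using h0
    rcases mul_eq_zero.mp h1 with h2 | h2
    · exact h4 h2
    · exact hne h2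
  have hq : ∀ n : ℕ, (n : MvPolynomial (Fin (m + 1)) K).IsHomogeneous 0 := fun n =>
    (Rep.natCast (K := K) (m := m) n).hP
  refine Rep.hh_le (P := P1 ^ 4 * Q3 - (8 : ℕ) * P3 * P1 * Q1 ^ 3)
    (Q := (4 : ℕ) * (P1 ^ 3 * Q3 + P3 * Q1 ^ 3) * Q1) ⟨?_, ?_, ?_, ?_⟩
  · refine IsHomogeneous.sub ?_ ?_
    · have := (r1.hP.pow 4).mul r3.hQ
      rwa [mul_comm (hh X) 4] at this
    · have := (((hq 8).mul r3.hP).mul r1.hP).mul (r1.hQ.pow 3)
      have e : 0 + hh c + hh X + hh X * 3 = 4 * hh X + hh c := by ring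
      rwa [e] at this
  · have := ((hq 4).mul (((r1.hP.pow 3).mul r3.hQ).add (by
      have := r3.hP.mul (r1.hQ.pow 3)
      rwa [add_comm (hh c)] at this))).mul r1.hQ
    have e : 0 + (hh X * 3 + hh c) + hh X = 4 * hh X + hh c := by ring
    rwa [e] at this
  · intro h0
    have h1 := congrArg (inc K m) h0
    simp only [map_mul, map_add, map_pow, map_natCast, map_zero] at h1
    rw [← e1, ← e3] at h1
    have h2 : (4 : LL K m) * ((X : LL K m) ^ 3 + c) *
        (inc K m Q1 ^ 4 * inc K m Q3) = 0 := by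
      rw [← h1]; push_cast; ring
    rcases mul_eq_zero.mp h2 with h3 | h3
    · exact hne' h3
    · exact absurd h3 (mul_ne_zero (pow_ne_zero _ r1.inc_ne) r3.inc_ne)
  · simp only [map_mul, map_add, map_sub, map_pow, map_natCast]
    rw [← e1, ← e3]
    push_cast
    linear_combination (inc K m Q1) ^ 4 * (inc K m Q3) * h'

/-- duplication on `Y ^ 2 = X ^ 3 + 1` (up to twist) -/
lemma dbl_eq (k2 : (2 : K) ≠ 0) (k3 : (3 : K) ≠ 0) {X X2 : FF K m} (hne : X ^ 3 + 1 ≠ 0)
    (h : X2 * (4 * (X ^ 3 + 1)) = X ^ 4 - 8 * X) : hh X2 = 4 * hh X := by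
  obtain ⟨P, Q, r⟩ := exists_red X
  have e1 := r.eq
  have h' : (X2 : LL K m) * (4 * ((X : LL K m) ^ 3 + 1)) = (X : LL K m) ^ 4 - 8 * X := by
    have := congrArg (F0 K m).subtype h
    simpa only [map_mul, map_add, map_sub, map_pow, map_ofNat, map_one,
      Subfield.subtype_apply] using this
  have hu : ∀ a : K, a ≠ 0 → IsUnit (C a : MvPolynomial (Fin (m + 1)) K) := fun a ha =>
    (isUnit_iff_ne_zero.mpr ha).map C
  have k4 : (4 : K) ≠ 0 := by
    have : (4 : K) = 2 * 2 := by norm_num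
    rw [this]; exact mul_ne_zero k2 k2
  have k9 : (9 : K) ≠ 0 := by
    have : (9 : K) = 3 * 3 := by norm_num
    rw [this]; exact mul_ne_zero k3 k3
  have hne' : P ^ 3 + Q ^ 3 ≠ 0 := by
    intro h0
    apply hne
    apply Subtype.ext
    have h1 := congrArg (inc K m) h0
    simp only [map_add, map_pow, map_zero] at h1
    rw [← e1] at h1
    have h2 : ((X : LL K m) ^ 3 + 1) * (inc K m Q ^ 3) = 0 := by
      rw [← h1]; ring
    rcases mul_eq_zero.mp h2 with h3 | h3
    · exact_mod_cast h3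
    · exact absurd h3 (pow_ne_zero _ r.inc_ne)
  have h48 : Red (X2 : LL K m) (4 * hh X) (P * (P ^ 3 - C 8 * Q ^ 3)) (C 4 * (P ^ 3 + Q ^ 3) * Q) := by
    refine ⟨⟨?_, ?_, ?_, ?_⟩, ?_⟩
    · have h2 : (C 8 * Q ^ 3).IsHomogeneous (hh X * 3) := by
        have := (isHomogeneous_C (Fin (m + 1)) (8 : K)).mul (r.hQ.pow 3)
        rwa [zero_add] at this
      have := r.hP.mul ((r.hP.pow 3).sub h2)
      have e : hh X + hh X * 3 = 4 * hh X := by ring
      rwa [e] at this
    · have := ((isHomogeneous_C (Fin (m + 1)) (4 : K)).mul ((r.hP.pow 3).add (r.hQ.pow 3))).mul r.hQ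
      have e : 0 + hh X * 3 + hh X = 4 * hh X := by ring
      rwa [e] at this
    · exact mul_ne_zero (mul_ne_zero (hu 4 k4).ne_zero hne') r.ne
    · have c8 : inc K m (C 8) = 8 := by
        have : (C 8 : MvPolynomial (Fin (m + 1)) K) = 8 := map_ofNat C 8
        rw [this, map_ofNat]
      have c4 : inc K m (C 4) = 4 := by
        have : (C 4 : MvPolynomial (Fin (m + 1)) K) = 4 := map_ofNat C 4
        rw [this, map_ofNat]
      simp only [map_mul, map_add, map_sub, map_pow, c8, c4]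
      rw [← e1]
      linear_combination (inc K m Q) ^ 4 * h'
    · intro D hD1 hD2
      by_contra hunit
      have hD0 : D ≠ 0 := by
        rintro rfl
        have := zero_dvd_iff.mp hD1
        exact mul_ne_zero (mul_ne_zero (hu 4 k4).ne_zero hne') r.ne this
      obtain ⟨p, hp, hpd⟩ := WfDvdMonoid.exists_irreducible_factor hunit hD0
      have hp' := hp.prime
      have key : p ∣ Q → False := fun hQ => by
        have h1 : p ∣ P * (P ^ 3 - C 8 * Q ^ 3) := hpd.trans hD2
        rcases hp'.dvd_or_dvd h1 with h2 | h2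
        · exact hp.not_isUnit (r.prime hQ h2)
        · have h3 : p ∣ C 8 * Q ^ 3 := (dvd_pow hQ (by norm_num)).mul_left _
          have h4 : p ∣ P ^ 3 := by
            have := dvd_add h2 h3
            rwa [sub_add_cancel] at this
          exact hp.not_isUnit (r.prime hQ (hp'.dvd_of_dvd_pow h4))
      have key2 : p ∣ P → p ∣ Q ^ 3 → False := fun _ h2 => key (hp'.dvd_of_dvd_pow h2)
      rcases hp'.dvd_or_dvd (hpd.trans hD1) with h1 | h1
      · rcases hp'.dvd_or_dvd h1 with h2 | h2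
        · exact hp.not_isUnit (isUnit_of_dvd_unit h2 (hu 4 k4))
        · rcases hp'.dvd_or_dvd (hpd.trans hD2) with h3 | h3
          · apply key2 h3
            have h4 : p ∣ P ^ 3 := dvd_pow h3 (by norm_num)
            have := dvd_sub h2 h4
            rwa [add_sub_cancel_left] at this
          · have h4 := dvd_sub h2 h3
            have h5 : P ^ 3 + Q ^ 3 - (P ^ 3 - C 8 * Q ^ 3) = C 9 * Q ^ 3 := by
              have : (C 9 : MvPolynomial (Fin (m + 1)) K) = 1 + C 8 := by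
                rw [← C_1, ← C_add]; norm_num
              rw [this]; ring
            rw [h5] at h4
            rcases hp'.dvd_or_dvd h4 with h6 | h6
            · exact hp.not_isUnit (isUnit_of_dvd_unit h6 (hu 9 k9))
            · exact key (hp'.dvd_of_dvd_pow h6)
      · exact key h1
  exact h48.ht_eq

end Pool.Agent.U211.DG
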