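import Mathlib

/-!
The curve `y ^ 2 = x ^ 3 + B` over an abstract field with a height function.
-/

set_option autoImplicit false

namespace Pool.Agent.U211.DG

open WeierstrassCurve WeierstrassCurve.Affine

section Formulas

variable {M : Type*} [Field M]

/-- the curve `y ^ 2 = x ^ 3 + B` -/
def Wc (B : M) : WeierstrassCurve M := ⟨0, 0, 0, 0, B⟩

/-- its points -/
abbrev Pt (B : M) : Type _ := (Wc B).toAffine.Point

variable {B : M}

lemma W_eq {x y : M} (h : (Wc B).toAffine.Nonsingular x y) : y ^ 2 = x ^ 3 + B := by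
  have := (WeierstrassCurve.Affine.equation_iff x y).mp h.1
  simpa [Wc] using this

lemma W_ns (k2 : (2 : M) ≠ 0) (k3 : (3 : M) ≠ 0) (hB : B ≠ 0) {x y : M} (h : y ^ 2 = x ^ 3 + B) :
    (Wc B).toAffine.Nonsingular x y := by
  rw [WeierstrassCurve.Affine.nonsingular_iff', WeierstrassCurve.Affine.equation_iff]
  refine ⟨by simpa [Wc] using h, ?_⟩
  by_contra hcon
  push Not at hcon
  obtain ⟨h1, h2⟩ := hcon
  simp [Wc] at h1 h2
  have hx : x = 0 := by
    rcases h1 with h1 | h1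
    · exact absurd h1 k3
    · exact h1
  have hy : y = 0 := by
    rcases h2 with h2 | h2
    · exact absurd h2 k2
    · exact h2
  apply hB
  rw [hx, hy] at h
  simpa using h.symm

lemma negY_eq (x y : M) : (Wc B).toAffine.negY x y = -y := by
  simp [WeierstrassCurve.Affine.negY, Wc]

lemma add_ne [DecidableEq M] {x y x' y' : M} (h : (Wc B).toAffine.Nonsingular x y)
    (h' : (Wc B).toAffine.Nonsingular x' y') (hx : x ≠ x') :
    ∃ (X Y : M) (hn : (Wc B).toAffine.Nonsingular X Y),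
      Point.some x y h + Point.some x' y' h' = Point.some X Y hn ∧
      X = ((y - y') / (x - x')) ^ 2 - x - x' ∧
      Y = -(y + (y - y') / (x - x') * (X - x)) := by
  refine ⟨_, _, _, Point.add_of_X_ne hx, ?_, ?_⟩
  · rw [slope_of_X_ne hx]
    simp [WeierstrassCurve.Affine.addX, Wc]
  · rw [slope_of_X_ne hx]
    simp [WeierstrassCurve.Affine.addY, WeierstrassCurve.Affine.negAddY,
      WeierstrassCurve.Affine.addX, Wc, WeierstrassCurve.Affine.negY]
    ring

lemma dbl [DecidableEq M] {x y : M} (k2 : (2 : M) ≠ 0) (h : (Wc B).toAffine.Nonsingular x y) (hy : y ≠ 0) :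
    ∃ (X Y : M) (hn : (Wc B).toAffine.Nonsingular X Y),
      Point.some x y h + Point.some x y h = Point.some X Y hn ∧
      X = (3 * x ^ 2 / (2 * y)) ^ 2 - x - x ∧
      Y = -(y + 3 * x ^ 2 / (2 * y) * (X - x)) := by
  have hy' : y ≠ (Wc B).toAffine.negY x y := by
    rw [negY_eq]
    intro h
    have : 2 * y = 0 := by linear_combination h
    rcases mul_eq_zero.mp this with h | h
    · exact k2 h
    · exact hy h
  have hs : (Wc B).toAffine.slope x x y y = 3 * x ^ 2 / (2 * y) := by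
    rw [slope_of_Y_ne rfl hy', negY_eq]
    simp only [WeierstrassCurve.toAffine, Wc]
    congr 1 <;> ring
  refine ⟨_, _, _, Point.add_self_of_Y_ne hy', ?_, ?_⟩
  · rw [hs]
    simp [WeierstrassCurve.Affine.addX, Wc]
  · rw [hs]
    simp [WeierstrassCurve.Affine.addY, WeierstrassCurve.Affine.negAddY,
      WeierstrassCurve.Affine.addX, Wc, WeierstrassCurve.Affine.negY]
    ring

lemma neg_pt {x y : M} (h : (Wc B).toAffine.Nonsingular x y) :
    ∃ hn : (Wc B).toAffine.Nonsingular x (-y), -Point.some x y h = Point.some x (-y) hn := by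
  have e : -Point.some x y h = Point.some x ((Wc B).toAffine.negY x y)
    ((nonsingular_neg ..).mpr h) := Point.neg_some h
  rw [e]
  simp only [negY_eq]
  exact ⟨by
    have : (Wc B).toAffine.Nonsingular x ((Wc B).toAffine.negY x y) := (nonsingular_neg ..).mpr h
    rwa [negY_eq] at this, trivial⟩

lemma par_formula {x1 y1 x2 y2 xp xm : M} (h1 : y1 ^ 2 = x1 ^ 3 + B) (h2 : y2 ^ 2 = x2 ^ 3 + B)
    (hne : x1 ≠ x2) (hp : xp = ((y1 - y2) / (x1 - x2)) ^ 2 - x1 - x2)
    (hm : xm = ((y1 + y2) / (x1 - x2)) ^ 2 - x1 - x2) :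
    (xp + xm) * (x1 - x2) ^ 2 = 2 * x1 * x2 * (x1 + x2) + 4 * B ∧
    xp * xm * (x1 - x2) ^ 2 = (x1 * x2) ^ 2 - 4 * B * (x1 + x2) := by
  have hd : x1 - x2 ≠ 0 := sub_ne_zero.mpr hne
  constructor
  · rw [hp, hm]
    field_simp
    linear_combination 2 * h1 + 2 * h2
  · rw [hp, hm]
    field_simp
    linear_combination (y1 ^ 2 + x1 ^ 3 + B - 2 * (x1 + x2) * (x1 - x2) ^ 2 - 2 * y2 ^ 2) * h1 +
      (y2 ^ 2 + x2 ^ 3 + B - 2 * (x1 + x2) * (x1 - x2) ^ 2 - 2 * (x1 ^ 3 + B)) * h2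

lemma dbl_formula {x y X : M} (k2 : (2 : M) ≠ 0) (h : y ^ 2 = x ^ 3 + B) (hy : y ≠ 0)
    (hX : X = (3 * x ^ 2 / (2 * y)) ^ 2 - x - x) :
    X * (4 * (x ^ 3 + B)) = x ^ 4 - 8 * B * x := by
  rw [hX, ← h]
  field_simp
  linear_combination (-32 * x) * h

lemma dbl_scaled {x y X s c : M} (k2 : (2 : M) ≠ 0) (hs : s ≠ 0) (h : y ^ 2 = x ^ 3 + s ^ 3 * c)
    (hy : y ≠ 0) (hX : X = (3 * x ^ 2 / (2 * y)) ^ 2 - x - x) :
    X / s * (4 * ((x / s) ^ 3 + c)) = (x / s) ^ 4 - 8 * c * (x / s) ∧ (x / s) ^ 3 + c ≠ 0 := by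
  have hf := dbl_formula k2 h hy hX
  constructor
  · have hs4 : s ^ 4 ≠ 0 := pow_ne_zero _ hs
    apply mul_left_cancel₀ hs4
    have e1 : s ^ 4 * (X / s * (4 * ((x / s) ^ 3 + c))) = X * (4 * (x ^ 3 + s ^ 3 * c)) := by
      field_simp
    have e2 : s ^ 4 * ((x / s) ^ 4 - 8 * c * (x / s)) = x ^ 4 - 8 * (s ^ 3 * c) * x := by
      field_simp
    rw [e1, e2, hf]
  · intro h0
    apply pow_ne_zero 2 hy
    rw [h]
    have : x ^ 3 + s ^ 3 * c = s ^ 3 * ((x / s) ^ 3 + c) := by field_simp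
    rw [this, h0, mul_zero]

lemma par_scaled {x y x' y' X X' s c : M} (hs : s ≠ 0) (h : y ^ 2 = x ^ 3 + s ^ 3 * c)
    (h' : y' ^ 2 = x' ^ 3 + s ^ 3 * c) (hx : x ≠ x')
    (hX : X = ((y - y') / (x - x')) ^ 2 - x - x') (hX' : X' = ((y + y') / (x - x')) ^ 2 - x - x') :
    x / s ≠ x' / s ∧
    (X / s + X' / s) * (x / s - x' / s) ^ 2 =
      2 * (x / s) * (x' / s) * (x / s + x' / s) + 4 * c ∧
    X / s * (X' / s) * (x / s - x' / s) ^ 2 =
      (x / s * (x' / s)) ^ 2 - 4 * c * (x / s + x' / s) := by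
  obtain ⟨f1, f2⟩ := par_formula h h' hx hX hX'
  refine ⟨?_, ?_, ?_⟩
  · intro h0
    apply hx
    field_simp at h0
    exact h0
  · have hs3 : s ^ 3 ≠ 0 := pow_ne_zero _ hs
    apply mul_left_cancel₀ hs3
    have e1 : s ^ 3 * ((X / s + X' / s) * (x / s - x' / s) ^ 2) = (X + X') * (x - x') ^ 2 := by
      field_simp
    have e2 : s ^ 3 * (2 * (x / s) * (x' / s) * (x / s + x' / s) + 4 * c) =
        2 * x * x' * (x + x') + 4 * (s ^ 3 * c) := by
      field_simp
    rw [e1, e2, f1]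
  · have hs4 : s ^ 4 ≠ 0 := pow_ne_zero _ hs
    apply mul_left_cancel₀ hs4
    have e1 : s ^ 4 * (X / s * (X' / s) * (x / s - x' / s) ^ 2) = X * X' * (x - x') ^ 2 := by
      field_simp
    have e2 : s ^ 4 * ((x / s * (x' / s)) ^ 2 - 4 * c * (x / s + x' / s)) =
        (x * x') ^ 2 - 4 * (s ^ 3 * c) * (x + x') := by
      field_simp
    rw [e1, e2, f2]

end Formulas

section Heights

/-- The properties of the height function of a field which are used for the points of the curves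
`y ^ 2 = x ^ 3 + B`. -/
structure HT (M : Type*) [Field M] (hh : M → ℕ) : Prop where
  two : (2 : M) ≠ 0
  three : (3 : M) ≠ 0
  add : ∀ r s, hh (r + s) ≤ hh r + hh s
  mul : ∀ r s, hh (r * s) ≤ hh r + hh s
  neg : ∀ r, hh (-r) ≤ hh r
  inv : ∀ r, hh r⁻¹ ≤ hh r
  one : hh 1 = 0
  pow : ∀ r (n : ℕ), hh (r ^ n) = n * hh r
  par : ∀ X1 X2 Xp Xm c : M, X1 ≠ X2 →
    (Xp + Xm) * (X1 - X2) ^ 2 = 2 * X1 * X2 * (X1 + X2) + 4 * c →
    Xp * Xm * (X1 - X2) ^ 2 = (X1 * X2) ^ 2 - 4 * c * (X1 + X2) →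
    hh Xp + hh Xm ≤ 2 * hh X1 + 2 * hh X2 + hh c
  dbl : ∀ X X2 c : M, X ^ 3 + c ≠ 0 → X2 * (4 * (X ^ 3 + c)) = X ^ 4 - 8 * c * X →
    hh X2 ≤ 4 * hh X + hh c
  dbl' : ∀ X X2 : M, X ^ 3 + 1 ≠ 0 → X2 * (4 * (X ^ 3 + 1)) = X ^ 4 - 8 * X →
    hh X2 = 4 * hh X

variable {M : Type*} [Field M] {B : M} {hh : M → ℕ}

/-- the height of the abscissa divided by `s` -/
def NN (hh : M → ℕ) (s : M) : Pt B → ℕ
  | .zero => 0
  | .some x _ _ => hh (x / s)

lemma NN_zero (s : M) : NN hh s (0 : Pt B) = 0 := rfl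

lemma NN_some (s : M) {x y : M} (h : (Wc B).toAffine.Nonsingular x y) :
    NN hh s (Point.some x y h) = hh (x / s) := rfl

lemma NN_neg (s : M) (P : Pt B) : NN hh s (-P) = NN hh s P := by
  rcases P with _ | ⟨x, y, h⟩
  · rfl
  · obtain ⟨hn, e⟩ := neg_pt h
    rw [e]
    rfl

variable [DecidableEq M]

/-- duplication -/
lemma NN_two_le (H : HT M hh) {s c : M} (hs : s ≠ 0) (hB : B = s ^ 3 * c) (P : Pt B) :
    NN hh s (P + P) ≤ 4 * NN hh s P + hh c := by
  rcases P with _ | ⟨x, y, h⟩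
  · change NN hh s ((0 : Pt B) + 0) ≤ _
    rw [add_zero, NN_zero]
    exact Nat.zero_le _
  · by_cases hy : y = 0
    · have : Point.some x y h + Point.some x y h = 0 := by
        apply Point.add_self_of_Y_eq
        rw [negY_eq, hy, neg_zero]
      rw [this, NN_zero]
      exact Nat.zero_le _
    · obtain ⟨X, Y, hn, e, hX, -⟩ := dbl H.two h hy
      rw [e, NN_some, NN_some]
      have hW := W_eq h
      obtain ⟨f1, f2⟩ := dbl_scaled H.two hs (by rw [← hB]; exact hW) hy hX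
      exact H.dbl _ _ _ f2 f1

/-- duplication, exact -/
lemma NN_two_eq (H : HT M hh) {s : M} (hs : s ≠ 0) (hB : B = s ^ 3)
    {x y : M} (h : (Wc B).toAffine.Nonsingular x y) (hy : y ≠ 0) :
    NN hh s (Point.some x y h + Point.some x y h) = 4 * NN hh s (Point.some x y h) := by
  obtain ⟨X, Y, hn, e, hX, -⟩ := dbl H.two h hy
  rw [e, NN_some, NN_some]
  have hW := W_eq h
  obtain ⟨f1, f2⟩ := dbl_scaled (c := 1) H.two hs (by rw [mul_one, ← hB]; exact hW) hy hX
  rw [mul_one] at f1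
  exact H.dbl' _ _ f2 f1

/-- **the parallelogram inequality** -/
theorem NN_par (H : HT M hh) {s c : M} (hs : s ≠ 0) (hB : B = s ^ 3 * c) (P Q : Pt B) :
    NN hh s (P + Q) + NN hh s (P - Q) ≤ 2 * NN hh s P + 2 * NN hh s Q + hh c := by
  rcases P with _ | ⟨x, y, h⟩
  · change NN hh s ((0 : Pt B) + Q) + NN hh s ((0 : Pt B) - Q) ≤ 2 * NN hh s (0 : Pt B) + _ + _
    rw [zero_add, zero_sub, NN_neg, NN_zero]
    omega
  rcases Q with _ | ⟨x', y', h'⟩
  · change NN hh s (_ + (0 : Pt B)) + NN hh s (_ - (0 : Pt B)) ≤ _ + 2 * NN hh s (0 : Pt B) + _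
    rw [add_zero, sub_zero, NN_zero]
    omega
  by_cases hx : x = x'
  · rcases (Point.X_eq_iff (h₁ := h) (h₂ := h')).mp hx with h3 | h3
    · rw [← h3, sub_self, NN_zero]
      have := NN_two_le H hs hB (Point.some x y h)
      omega
    · have e1 : Point.some x' y' h' = -Point.some x y h := by rw [h3, neg_neg]
      rw [e1, add_neg_cancel, sub_neg_eq_add, NN_zero, NN_neg]
      have := NN_two_le H hs hB (Point.some x y h)
      omega
  · obtain ⟨X, Y, hn, e, hX, -⟩ := add_ne h h' hx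
    obtain ⟨hn', e'⟩ := neg_pt h'
    obtain ⟨X', Y', hn'', e'', hX', -⟩ := add_ne h hn' hx
    rw [sub_eq_add_neg, e', e, e'', NN_some, NN_some, NN_some, NN_some]
    rw [sub_neg_eq_add] at hX'
    obtain ⟨f0, f1, f2⟩ := par_scaled hs (by rw [← hB]; exact W_eq h)
      (by rw [← hB]; exact W_eq h') hx hX hX'
    exact H.par _ _ _ _ _ f0 f1 f2

end Heights

/-! ### quadratic growth in abelian groups -/

section Growth

variable {G : Type*} [AddCommGroup G] (N : G → ℕ) (e : ℕ)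

lemma nsmul_le (h0 : N 0 = 0) (hpar : ∀ P Q, N (P + Q) + N (P - Q) ≤ 2 * N P + 2 * N Q + e)
    (P : G) (n : ℕ) : N (n • P) ≤ n ^ 2 * (N P + e) := by
  have h1 : ∀ n : ℕ, N ((n + 1) • P) + n * (n + 1) * (N P + e) ≤
      (n + 1) ^ 2 * (N P + e) + n * (n + 1) * (N P + e) ∧
      N ((n + 1) • P) ≤ N (n • P) + (2 * n + 1) * (N P + e) := by
    intro n
    induction n with
    | zero => simp [h0]
    | succ n ih =>
      have h2 := hpar ((n + 1) • P) P
      have e1 : (n + 1) • P + P = (n + 1 + 1) • P := by rw [succ_nsmul _ (n + 1)]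
      have e2 : (n + 1) • P - P = n • P := by rw [succ_nsmul, add_sub_cancel_right]
      rw [e1, e2] at h2
      have h3 : N ((n + 1 + 1) • P) ≤ N ((n + 1) • P) + (2 * (n + 1) + 1) * (N P + e) := by
        have h4 := ih.2
        have h5 : (2 * (n + 1) + 1) * (N P + e) = (2 * n + 1) * (N P + e) + (2 * N P + e) + e := by
          ring
        omega
      refine ⟨?_, h3⟩
      have h6 := ih.1
      have h7 : (n + 1 + 1) ^ 2 * (N P + e) = (n + 1) ^ 2 * (N P + e) +
        (2 * (n + 1) + 1) * (N P + e) := by ring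
      omega
  cases n with
  | zero => simp [h0]
  | succ n => have := (h1 n).1; omega

lemma nsmul_eq (h0 : N 0 = 0) (hpar : ∀ P Q, N (P + Q) + N (P - Q) ≤ 2 * N P + 2 * N Q)
    (P : G) (hdbl : ∀ n : ℕ, N ((2 * n) • P) = 4 * N (n • P)) (n : ℕ) :
    N (n • P) = n ^ 2 * N P := by
  have key : ∀ n : ℕ, 2 * N ((n + 1) • P) + 2 * N P ≤ N ((n + 2) • P) + N (n • P) := by
    intro n
    have h1 := hpar ((n + 2) • P) (n • P)
    have e1 : (n + 2) • P + n • P = (2 * (n + 1)) • P := by rw [← add_nsmul]; congr 1; ring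
    have e2 : (n + 2) • P - n • P = (2 * 1) • P := by
      rw [add_nsmul, add_sub_cancel_left]
    rw [e1, e2, hdbl, hdbl, one_nsmul] at h1
    omega
  have key2 : ∀ n : ℕ, N ((n + 2) • P) + N (n • P) ≤ 2 * N ((n + 1) • P) + 2 * N P := by
    intro n
    have h1 := hpar ((n + 1) • P) P
    have e1 : (n + 1) • P + P = (n + 2) • P := by rw [← succ_nsmul]
    have e2 : (n + 1) • P - P = n • P := by rw [succ_nsmul, add_sub_cancel_right]
    rwa [e1, e2] at h1
  have h3 : ∀ n : ℕ, N (n • P) = n ^ 2 * N P ∧ N ((n + 1) • P) = (n + 1) ^ 2 * N P := by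
    intro n
    induction n with
    | zero => simp [h0]
    | succ n ih =>
      refine ⟨ih.2, ?_⟩
      have h4 := key n
      have h5 := key2 n
      have e1 : (n + 1 + 1) ^ 2 * N P + n ^ 2 * N P = 2 * ((n + 1) ^ 2 * N P) + 2 * N P := by ring
      have h6 := ih.1
      have h7 := ih.2
      have h8 : N ((n + 2) • P) = (n + 1 + 1) ^ 2 * N P := by omega
      exact h8
  exact (h3 n).1

end Growth

end Pool.Agent.U211.DG
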