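import Mathlib
import Pool.Agent.U211.DG.Curve

/-!
The map `(P, Q, R) ↦ (P + Q, Q + R, R)` in the coordinates
`x_P / x_R`, `x_Q / x_R`, `(y_P - y_R) / (y_Q - y_R)`.
-/

set_option autoImplicit false

namespace Pool.Agent.U211.DG

open WeierstrassCurve WeierstrassCurve.Affine

section Formulas

variable {M : Type*} [Field M]

def tau (u1 u2 w : M) : M :=
  2 * ((u1 ^ 3 - 1) - w * (u2 ^ 3 - 1)) / (w ^ 2 * (u2 ^ 3 - 1) - (u1 ^ 3 - 1))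
def kap (u2 t : M) : M := (u2 ^ 3 - 1) / (t * (2 + t))
def addX (κ X1 Y1 X2 Y2 : M) : M := κ * ((Y1 - Y2) / (X1 - X2)) ^ 2 - X1 - X2
def addY (κ X1 Y1 X2 Y2 : M) : M :=
  -(Y1 + (Y1 - Y2) / (X1 - X2) * (addX κ X1 Y1 X2 Y2 - X1))

/-- the step with given `κ`, `Y`-coordinates -/
def stepA (κ u1 v1 u2 v2 : M) : Fin 3 → M :=
  ![addX κ u1 v1 u2 v2, addX κ u2 v2 1 1, (addY κ u1 v1 u2 v2 - 1) / (addY κ u2 v2 1 1 - 1)]

/-- the step -/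
def step (a : Fin 3 → M) : Fin 3 → M :=
  stepA (kap (a 1) (tau (a 0) (a 1) (a 2))) (a 0) (1 + a 2 * tau (a 0) (a 1) (a 2)) (a 1)
    (1 + tau (a 0) (a 1) (a 2))

/-- the point at which the denominators do not vanish -/
structure Good (a : Fin 3 → M) : Prop where
  g1 : a 2 ^ 2 * (a 1 ^ 3 - 1) - (a 0 ^ 3 - 1) ≠ 0
  g2 : tau (a 0) (a 1) (a 2) * (2 + tau (a 0) (a 1) (a 2)) ≠ 0
  g3 : a 0 - a 1 ≠ 0
  g4 : a 1 - 1 ≠ 0
  g5 : addY (kap (a 1) (tau (a 0) (a 1) (a 2))) (a 1) (1 + tau (a 0) (a 1) (a 2)) 1 1 - 1 ≠ 0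

end Formulas

/-! ### partial evaluations -/

section Ev

variable {M M' : Type*} [Field M] [Field M']

/-- a partial evaluation map from a field to a field -/
structure EvRel (Ev : M → M' → Prop) : Prop where
  one : Ev 1 1
  add : ∀ {r s c e}, Ev r c → Ev s e → Ev (r + s) (c + e)
  mul : ∀ {r s c e}, Ev r c → Ev s e → Ev (r * s) (c * e)
  neg : ∀ {r c}, Ev r c → Ev (-r) (-c)
  inv : ∀ {r c}, Ev r c → c ≠ 0 → Ev r⁻¹ c⁻¹
  ne : ∀ {r c}, Ev r c → c ≠ 0 → r ≠ 0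

variable {Ev : M → M' → Prop} (E : EvRel Ev)
include E

lemma EvRel.sub {r s : M} {c e : M'} (h : Ev r c) (h' : Ev s e) : Ev (r - s) (c - e) := by
  rw [sub_eq_add_neg, sub_eq_add_neg]
  exact E.add h (E.neg h')

lemma EvRel.div {r s : M} {c e : M'} (h : Ev r c) (h' : Ev s e) (he : e ≠ 0) :
    Ev (r / s) (c / e) := by
  rw [div_eq_mul_inv, div_eq_mul_inv]
  exact E.mul h (E.inv h' he)

lemma EvRel.pow {r : M} {c : M'} (h : Ev r c) (n : ℕ) : Ev (r ^ n) (c ^ n) := by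
  induction n with
  | zero => simpa using E.one
  | succ n ih => rw [pow_succ, pow_succ]; exact E.mul ih h

lemma EvRel.two : Ev 2 2 := by
  rw [← one_add_one_eq_two, ← one_add_one_eq_two]
  exact E.add E.one E.one

lemma EvRel.tau {u1 u2 w : M} {c1 c2 c3 : M'} (h1 : Ev u1 c1) (h2 : Ev u2 c2) (h3 : Ev w c3)
    (h : c3 ^ 2 * (c2 ^ 3 - 1) - (c1 ^ 3 - 1) ≠ 0) : Ev (tau u1 u2 w) (tau c1 c2 c3) :=
  E.div (E.mul E.two (E.sub (E.sub (E.pow h1 3) E.one) (E.mul h3 (E.sub (E.pow h2 3) E.one))))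
    (E.sub (E.mul (E.pow h3 2) (E.sub (E.pow h2 3) E.one)) (E.sub (E.pow h1 3) E.one)) h

lemma EvRel.kap {u2 t : M} {c1 c2 : M'} (h1 : Ev u2 c1) (h2 : Ev t c2)
    (h : c2 * (2 + c2) ≠ 0) : Ev (kap u2 t) (kap c1 c2) :=
  E.div (E.sub (E.pow h1 3) E.one) (E.mul h2 (E.add E.two h2)) h

lemma EvRel.addX {κ X1 Y1 X2 Y2 : M} {c0 c1 c2 c3 c4 : M'} (h0 : Ev κ c0) (h1 : Ev X1 c1)
    (h2 : Ev Y1 c2) (h3 : Ev X2 c3) (h4 : Ev Y2 c4) (h : c1 - c3 ≠ 0) :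
    Ev (addX κ X1 Y1 X2 Y2) (addX c0 c1 c2 c3 c4) :=
  E.sub (E.sub (E.mul h0 (E.pow (E.div (E.sub h2 h4) (E.sub h1 h3) h) 2)) h1) h3

lemma EvRel.addY {κ X1 Y1 X2 Y2 : M} {c0 c1 c2 c3 c4 : M'} (h0 : Ev κ c0) (h1 : Ev X1 c1)
    (h2 : Ev Y1 c2) (h3 : Ev X2 c3) (h4 : Ev Y2 c4) (h : c1 - c3 ≠ 0) :
    Ev (addY κ X1 Y1 X2 Y2) (addY c0 c1 c2 c3 c4) :=
  E.neg (E.add h2 (E.mul (E.div (E.sub h2 h4) (E.sub h1 h3) h)
    (E.sub (E.addX h0 h1 h2 h3 h4 h) h1)))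

/-- **transfer of nondegeneracy** -/
theorem EvRel.step {a : Fin 3 → M} {b : Fin 3 → M'} (h : ∀ i, Ev (a i) (b i)) (hb : Good b) :
    Good a ∧ ∀ i, Ev (step a i) (step b i) := by
  have ht := E.tau (h 0) (h 1) (h 2) hb.g1
  have hk := E.kap (h 1) ht hb.g2
  have hv2 := E.add E.one ht
  have hv1 := E.add E.one (E.mul (h 2) ht)
  have hY2 := E.addY hk (h 1) hv2 E.one E.one hb.g4
  refine ⟨⟨?_, ?_, ?_, ?_, ?_⟩, ?_⟩
  · exact E.ne (E.sub (E.mul (E.pow (h 2) 2) (E.sub (E.pow (h 1) 3) E.one))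
      (E.sub (E.pow (h 0) 3) E.one)) hb.g1
  · exact E.ne (E.mul ht (E.add E.two ht)) hb.g2
  · exact E.ne (E.sub (h 0) (h 1)) hb.g3
  · exact E.ne (E.sub (h 1) E.one) hb.g4
  · exact E.ne (E.sub hY2 E.one) hb.g5
  · intro i
    fin_cases i
    · exact E.addX hk (h 0) hv1 (h 1) hv2 hb.g3
    · exact E.addX hk (h 1) hv2 E.one E.one hb.g4
    · exact E.div (E.sub (E.addY hk (h 0) hv1 (h 1) hv2 hb.g3) E.one) (E.sub hY2 E.one) hb.g5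

end Ev

/-! ### the step in terms of the group law -/

section Ell

variable {M : Type*} [Field M]

/-- recovering the ordinates -/
lemma tau_val {κ u1 v1 u2 v2 : M} (h1 : κ * v1 ^ 2 = u1 ^ 3 + κ - 1)
    (h2 : κ * v2 ^ 2 = u2 ^ 3 + κ - 1) (hv : v2 ≠ 1)
    (hg : ((v1 - 1) / (v2 - 1)) ^ 2 * (u2 ^ 3 - 1) - (u1 ^ 3 - 1) ≠ 0) :
    tau u1 u2 ((v1 - 1) / (v2 - 1)) = v2 - 1 := by
  have hd : v2 - 1 ≠ 0 := sub_ne_zero.mpr hv
  rw [tau, div_eq_iff hg]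
  have e1 : u1 ^ 3 - 1 = κ * (v1 ^ 2 - 1) := by linear_combination -h1
  have e2 : u2 ^ 3 - 1 = κ * (v2 ^ 2 - 1) := by linear_combination -h2
  rw [e1, e2]
  field_simp
  ring

lemma kap_val {κ u2 v2 : M} (h2 : κ * v2 ^ 2 = u2 ^ 3 + κ - 1)
    (hg : (v2 - 1) * (2 + (v2 - 1)) ≠ 0) : kap u2 (v2 - 1) = κ := by
  rw [kap, div_eq_iff hg]
  linear_combination -h2

/-- the ordinates from the coordinates -/
lemma curve_of_good {a : Fin 3 → M} (h : Good a) :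
    kap (a 1) (tau (a 0) (a 1) (a 2)) * (1 + tau (a 0) (a 1) (a 2)) ^ 2 =
      a 1 ^ 3 + kap (a 1) (tau (a 0) (a 1) (a 2)) - 1 ∧
    kap (a 1) (tau (a 0) (a 1) (a 2)) * (1 + a 2 * tau (a 0) (a 1) (a 2)) ^ 2 =
      a 0 ^ 3 + kap (a 1) (tau (a 0) (a 1) (a 2)) - 1 := by
  set t := tau (a 0) (a 1) (a 2) with ht
  have h1 : t * (a 2 ^ 2 * (a 1 ^ 3 - 1) - (a 0 ^ 3 - 1)) =
      2 * ((a 0 ^ 3 - 1) - a 2 * (a 1 ^ 3 - 1)) := by
    rw [ht, tau, div_mul_cancel₀ _ h.g1]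
  have h2 : kap (a 1) t * (t * (2 + t)) = a 1 ^ 3 - 1 := by
    rw [kap, div_mul_cancel₀ _ h.g2]
  have h3 : t ≠ 0 := left_ne_zero_of_mul h.g2
  have h4 : 2 + t ≠ 0 := right_ne_zero_of_mul h.g2
  constructor
  · linear_combination h2
  · apply mul_left_cancel₀ h4
    linear_combination (2 * a 2 + a 2 ^ 2 * t) * h2 + h1

variable {κ : M}

/-- the parameter of the curve -/
abbrev BB (κ : M) : M := κ ^ 3 * (κ - 1)

/-- scaled abscissa -/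
def XX (κ : M) : Pt (BB κ) → M
  | .zero => 0
  | .some x _ _ => x / κ

/-- scaled ordinate -/
def YY (κ : M) : Pt (BB κ) → M
  | .zero => 0
  | .some _ y _ => y / κ ^ 2

/-- the coordinates of the point attached to `P`, `Q` -/
def ptc (κ : M) (P Q : Pt (BB κ)) : Fin 3 → M :=
  ![XX κ P, XX κ Q, (YY κ P - 1) / (YY κ Q - 1)]

lemma XX_some {x y : M} (h : (Wc (BB κ)).toAffine.Nonsingular x y) :
    XX κ (Point.some x y h) = x / κ := rfl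
lemma YY_some {x y : M} (h : (Wc (BB κ)).toAffine.Nonsingular x y) :
    YY κ (Point.some x y h) = y / κ ^ 2 := rfl

lemma curve (hκ : κ ≠ 0) (P : Pt (BB κ)) (hP : P ≠ 0) :
    κ * YY κ P ^ 2 = XX κ P ^ 3 + κ - 1 := by
  rcases P with _ | ⟨x, y, h⟩
  · exact absurd rfl hP
  · have := W_eq h
    rw [XX_some, YY_some]
    field_simp
    linear_combination this

/-- a point with given scaled coordinates -/
lemma exists_pt (k2 : (2 : M) ≠ 0) (k3 : (3 : M) ≠ 0) (hκ : κ ≠ 0) (hκ1 : κ ≠ 1) {u v : M}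
    (h : κ * v ^ 2 = u ^ 3 + κ - 1) : ∃ P : Pt (BB κ), P ≠ 0 ∧ XX κ P = u ∧ YY κ P = v := by
  have hB : BB κ ≠ 0 := mul_ne_zero (pow_ne_zero _ hκ) (sub_ne_zero.mpr hκ1)
  have hns : (Wc (BB κ)).toAffine.Nonsingular (κ * u) (κ ^ 2 * v) := by
    apply W_ns k2 k3 hB
    linear_combination κ ^ 3 * h
  refine ⟨Point.some _ _ hns, Point.some_ne_zero _, ?_, ?_⟩
  · rw [XX_some]; field_simp
  · rw [YY_some]; field_simp

variable [DecidableEq M]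

lemma add_scaled (hκ : κ ≠ 0) (P Q : Pt (BB κ)) (hP : P ≠ 0) (hQ : Q ≠ 0)
    (h : XX κ P ≠ XX κ Q) : P + Q ≠ 0 ∧
    XX κ (P + Q) = addX κ (XX κ P) (YY κ P) (XX κ Q) (YY κ Q) ∧
    YY κ (P + Q) = addY κ (XX κ P) (YY κ P) (XX κ Q) (YY κ Q) := by
  rcases P with _ | ⟨x, y, h1⟩
  · exact absurd rfl hP
  rcases Q with _ | ⟨x', y', h2⟩
  · exact absurd rfl hQ
  rw [XX_some, XX_some] at h
  have hx : x ≠ x' := fun h0 => h (by rw [h0])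
  have hd : x - x' ≠ 0 := sub_ne_zero.mpr hx
  obtain ⟨X, Y, hn, e, hX, hY⟩ := add_ne h1 h2 hx
  rw [e, XX_some, XX_some, YY_some, YY_some, XX_some, YY_some]
  have hd' : x / κ - x' / κ = (x - x') / κ := by ring
  have e1 : X / κ = addX κ (x / κ) (y / κ ^ 2) (x' / κ) (y' / κ ^ 2) := by
    rw [addX, hd', hX]
    field_simp
  refine ⟨Point.some_ne_zero _, e1, ?_⟩
  rw [addY, ← e1, hd', hY]
  field_simp

/-- **the elliptic step** -/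
theorem ell_step (hκ : κ ≠ 0) {C P Q : Pt (BB κ)} (hC : C ≠ 0) (hCX : XX κ C = 1)
    (hCY : YY κ C = 1) (hP : P ≠ 0) (hQ : Q ≠ 0) (hY : YY κ Q ≠ 1) (hg : Good (ptc κ P Q)) :
    P + Q ≠ 0 ∧ Q + C ≠ 0 ∧ YY κ (Q + C) ≠ 1 ∧ step (ptc κ P Q) = ptc κ (P + Q) (Q + C) ∧
    kap (XX κ Q) (tau (XX κ P) (XX κ Q) ((YY κ P - 1) / (YY κ Q - 1))) = κ := by
  have hg1 := hg.g1
  have hg2 := hg.g2
  have hg3 := hg.g3
  have hg4 := hg.g4
  have hg5 := hg.g5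
  simp only [ptc, Matrix.cons_val_zero, Matrix.cons_val_one, Matrix.cons_val] at hg1 hg2 hg3 hg4 hg5
  have ht := tau_val (curve hκ P hP) (curve hκ Q hQ) hY hg1
  rw [ht] at hg2 hg5
  have hk := kap_val (curve hκ Q hQ) hg2
  rw [hk] at hg5
  obtain ⟨a1, a2, a3⟩ := add_scaled hκ P Q hP hQ (sub_ne_zero.mp hg3)
  obtain ⟨b1, b2, b3⟩ := add_scaled hκ Q C hQ hC (by rw [hCX]; exact sub_ne_zero.mp hg4)
  have hd : YY κ Q - 1 ≠ 0 := sub_ne_zero.mpr hY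
  have e2 : 1 + (YY κ Q - 1) = YY κ Q := by ring
  have e1 : 1 + (YY κ P - 1) / (YY κ Q - 1) * (YY κ Q - 1) = YY κ P := by
    rw [div_mul_cancel₀ _ hd]; ring
  rw [e2] at hg5
  rw [hCX, hCY] at b2 b3
  refine ⟨a1, b1, ?_, ?_, ?_⟩
  · rw [b3]; exact sub_ne_zero.mp hg5
  · simp only [step, ptc, Matrix.cons_val_zero, Matrix.cons_val_one, Matrix.cons_val]
    rw [ht, hk, e2, e1, stepA, a2, b2, a3, b3]
  · rw [ht, hk]

/-- nondegeneracy from the points -/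
theorem good_of (k2 : (2 : M) ≠ 0) (hκ : κ ≠ 0) {C P Q : Pt (BB κ)} (hC : C ≠ 0)
    (hCX : XX κ C = 1) (hCY : YY κ C = 1) (hP : P ≠ 0) (hQ : Q ≠ 0)
    (h1 : YY κ P ≠ 1) (h2 : YY κ Q ≠ 1) (h3 : YY κ Q ≠ -1) (h4 : YY κ P ≠ YY κ Q)
    (h5 : XX κ P ≠ XX κ Q) (h6 : XX κ Q ≠ 1) (h7 : YY κ (Q + C) ≠ 1) : Good (ptc κ P Q) := by
  have hd : YY κ Q - 1 ≠ 0 := sub_ne_zero.mpr h2
  have g1 : ((YY κ P - 1) / (YY κ Q - 1)) ^ 2 * (XX κ Q ^ 3 - 1) - (XX κ P ^ 3 - 1) ≠ 0 := by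
    have e1 : XX κ P ^ 3 - 1 = κ * (YY κ P ^ 2 - 1) := by
      linear_combination -(curve hκ P hP)
    have e2 : XX κ Q ^ 3 - 1 = κ * (YY κ Q ^ 2 - 1) := by
      linear_combination -(curve hκ Q hQ)
    have e3 : ((YY κ P - 1) / (YY κ Q - 1)) ^ 2 * (XX κ Q ^ 3 - 1) - (XX κ P ^ 3 - 1) =
        2 * κ * (YY κ P - 1) * (YY κ P - YY κ Q) / (YY κ Q - 1) := by
      rw [e1, e2]
      field_simp
      ring
    rw [e3]
    exact div_ne_zero (mul_ne_zero (mul_ne_zero (mul_ne_zero k2 hκ) (sub_ne_zero.mpr h1))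
      (sub_ne_zero.mpr h4)) hd
  have ht := tau_val (curve hκ P hP) (curve hκ Q hQ) h2 g1
  have g2 : (YY κ Q - 1) * (2 + (YY κ Q - 1)) ≠ 0 := by
    refine mul_ne_zero hd ?_
    intro h0
    exact h3 (by linear_combination h0)
  have hk := kap_val (curve hκ Q hQ) g2
  have e2 : 1 + (YY κ Q - 1) = YY κ Q := by ring
  obtain ⟨b1, b2, b3⟩ := add_scaled hκ Q C hQ hC (by rw [hCX]; exact h6)
  rw [hCX, hCY] at b2 b3
  refine ⟨?_, ?_, ?_, ?_, ?_⟩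
  · simpa only [ptc, Matrix.cons_val_zero, Matrix.cons_val_one, Matrix.cons_val] using g1
  · simp only [ptc, Matrix.cons_val_zero, Matrix.cons_val_one, Matrix.cons_val]
    rw [ht]; exact g2
  · simpa only [ptc, Matrix.cons_val_zero, Matrix.cons_val_one, Matrix.cons_val] using
      sub_ne_zero.mpr h5
  · simpa only [ptc, Matrix.cons_val_zero, Matrix.cons_val_one, Matrix.cons_val] using
      sub_ne_zero.mpr h6
  · simp only [ptc, Matrix.cons_val_zero, Matrix.cons_val_one, Matrix.cons_val]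
    rw [ht, hk, e2, ← b3]
    exact sub_ne_zero.mpr h7

end Ell

end Pool.Agent.U211.DG
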