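import Mathlib
import Pool.Agent.U211.DG.Step
import Pool.Agent.U211.DG.Par
import Pool.Agent.U211.DG.RM

/-!
The height function on the elements of degree zero; the backward step; the special curve over
`K(T)`, with a point all of whose multiples are different.
-/

set_option autoImplicit false

namespace Pool.Agent.U211.DG

open WeierstrassCurve WeierstrassCurve.Affine
open Pool.Agent.H905R3

universe u

section Inst

variable {K : Type u} [Field K] {m : ℕ}

lemma ff_ne {k : ℕ} (hk : (k : K) ≠ 0) : (k : FF K m) ≠ 0 := by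
  intro h
  have h1 : (k : LL K m) = 0 := by
    have := congrArg (F0 K m).subtype h
    rwa [map_natCast, map_zero] at this
  have h2 : inc K m (MvPolynomial.C (k : K)) = 0 := by
    rw [map_natCast, map_natCast, h1]
  have h3 : (MvPolynomial.C (k : K) : MvPolynomial (Fin (m + 1)) K) = 0 :=
    inc_inj (by rw [h2, map_zero])
  exact hk (MvPolynomial.C_eq_zero.mp h3)

theorem ht_inst (k2 : (2 : K) ≠ 0) (k3 : (3 : K) ≠ 0) : HT (FF K m) (hh (K := K) (m := m)) := by
  have n2 : (2 : FF K m) ≠ 0 := ff_ne (m := m) (k := 2) (by exact_mod_cast k2)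
  have n3 : (3 : FF K m) ≠ 0 := ff_ne (m := m) (k := 3) (by exact_mod_cast k3)
  have n4 : (4 : FF K m) ≠ 0 := ff_ne (m := m) (k := 4) (by
    have : ((4 : ℕ) : K) = 2 * 2 := by norm_num
    rw [this]
    exact mul_ne_zero k2 k2)
  exact {
    two := n2
    three := n3
    add := hh_add
    mul := hh_mul
    neg := hh_neg
    inv := hh_inv
    one := hh_one
    pow := hh_pow
    par := fun X1 X2 Xp Xm c h1 h2 h3 => par_le h1 h2 h3
    dbl := fun X X2 c h1 h2 => dbl_le h1 n4 h2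
    dbl' := fun X X2 h1 h2 => dbl_eq k2 k3 h1 h2 }

/-- evaluation of the elements of degree zero -/
def Ev {m' : ℕ} (a : Fin (m + 1) → LL K m') (r : FF K m) (c : FF K m') : Prop :=
  EvalsTo a (r : LL K m) (c : LL K m')

theorem ev_rel {m' : ℕ} (a : Fin (m + 1) → LL K m') : EvRel (Ev (K := K) (m := m) a) where
  one := EvalsTo.one
  add := fun h h' => EvalsTo.add h h'
  mul := fun h h' => EvalsTo.mul h h'
  neg := fun h => EvalsTo.neg h
  inv := fun {r c} h hc => EvalsTo.inv h (fun h0 => hc (Subtype.ext h0))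
  ne := fun {r c} h hc h0 => EvalsTo.ne h (fun h1 => hc (Subtype.ext h1)) (by rw [h0]; rfl)

end Inst

/-! ### the backward step -/

section Back

variable {M : Type*} [Field M]

/-- the backward step with given `κ` and ordinates -/
def backA (κ u1 v1 u2 v2 : M) : Fin 3 → M :=
  ![addX κ u1 v1 (addX κ u2 v2 1 (-1)) (-addY κ u2 v2 1 (-1)), addX κ u2 v2 1 (-1),
    (addY κ u1 v1 (addX κ u2 v2 1 (-1)) (-addY κ u2 v2 1 (-1)) - 1) /
      (addY κ u2 v2 1 (-1) - 1)]

/-- the backward step -/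
def back (a : Fin 3 → M) : Fin 3 → M :=
  backA (kap (a 1) (tau (a 0) (a 1) (a 2))) (a 0) (1 + a 2 * tau (a 0) (a 1) (a 2)) (a 1)
    (1 + tau (a 0) (a 1) (a 2))

theorem EvRel.back {M' : Type*} [Field M'] {Ev : M → M' → Prop} (E : EvRel Ev)
    {a : Fin 3 → M} {b : Fin 3 → M'} (h : ∀ i, Ev (a i) (b i)) (hb : Good b)
    (h1 : b 0 - DG.back b 1 ≠ 0)
    (h2 : DG.addY (DG.kap (b 1) (DG.tau (b 0) (b 1) (b 2))) (b 1)
      (1 + DG.tau (b 0) (b 1) (b 2)) 1 (-1) - 1 ≠ 0) :
    ∀ i, Ev (DG.back a i) (DG.back b i) := by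
  have ht := E.tau (h 0) (h 1) (h 2) hb.g1
  have hk := E.kap (h 1) ht hb.g2
  have hv2 := E.add E.one ht
  have hv1 := E.add E.one (E.mul (h 2) ht)
  have hm := E.neg E.one
  have hX := E.addX hk (h 1) hv2 E.one hm hb.g4
  have hY := E.addY hk (h 1) hv2 E.one hm hb.g4
  intro i
  fin_cases i
  · exact E.addX hk (h 0) hv1 hX (E.neg hY) h1
  · exact hX
  · exact E.div (E.sub (E.addY hk (h 0) hv1 hX (E.neg hY) h1) E.one) (E.sub hY E.one) h2

variable {κ : M}

lemma XX_neg (P : Pt (BB κ)) : XX κ (-P) = XX κ P := by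
  rcases P with _ | ⟨x, y, h⟩
  · rfl
  · obtain ⟨hn, e⟩ := neg_pt h
    rw [e]
    rfl

lemma YY_neg (P : Pt (BB κ)) : YY κ (-P) = -YY κ P := by
  rcases P with _ | ⟨x, y, h⟩
  · change (0 : M) = -0
    rw [neg_zero]
  · obtain ⟨hn, e⟩ := neg_pt h
    rw [e, YY_some, YY_some, neg_div]

variable [DecidableEq M]

/-- the backward step in terms of the group law -/
theorem ell_back (hκ : κ ≠ 0) {C P Q : Pt (BB κ)} (hC : C ≠ 0) (hCX : XX κ C = 1)
    (hCY : YY κ C = 1) (hP : P ≠ 0) (hQ : Q ≠ 0) (h1 : XX κ Q ≠ 1)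
    (h2 : XX κ P ≠ XX κ (Q - C)) :
    Q - C ≠ 0 ∧ P - (Q - C) ≠ 0 ∧
    backA κ (XX κ P) (YY κ P) (XX κ Q) (YY κ Q) = ptc κ (P - (Q - C)) (Q - C) ∧
    YY κ (Q - C) = addY κ (XX κ Q) (YY κ Q) 1 (-1) := by
  obtain ⟨a1, a2, a3⟩ := add_scaled hκ Q (-C) hQ (neg_ne_zero.mpr hC) (by
    rw [XX_neg, hCX]; exact h1)
  rw [← sub_eq_add_neg] at a1 a2 a3
  rw [XX_neg, YY_neg, hCX, hCY] at a2 a3
  obtain ⟨b1, b2, b3⟩ := add_scaled hκ P (-(Q - C)) hP (neg_ne_zero.mpr a1) (by
    rw [XX_neg]; exact h2)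
  rw [← sub_eq_add_neg] at b1 b2 b3
  rw [XX_neg, YY_neg, a2, a3] at b2 b3
  refine ⟨a1, b1, ?_, a3⟩
  rw [backA, ptc, b2, b3, a2, a3]

end Back

/-! ### the special point -/

section Special

variable {M : Type*} [Field M] [DecidableEq M] {hh : M → ℕ}

/-- if `y = 0` the height of the abscissa vanishes, so duplication is exact for all points -/
lemma NN_dbl (H : HT M hh) {B s : M} (hs : s ≠ 0) (hB : B = s ^ 3) (P : Pt B) :
    NN hh s (P + P) = 4 * NN hh s P := by
  rcases P with _ | ⟨x, y, h⟩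
  · change NN hh s ((0 : Pt B) + 0) = 4 * NN hh s (0 : Pt B)
    rw [add_zero, NN_zero]
  · by_cases hy : y = 0
    · have e : Point.some x y h + Point.some x y h = 0 := by
        apply Point.add_self_of_Y_eq
        rw [negY_eq, hy, neg_zero]
      rw [e, NN_zero, NN_some]
      have h1 := W_eq h
      have h2 : (x / s) ^ 3 = -1 := by
        rw [div_pow, div_eq_iff (pow_ne_zero _ hs)]
        rw [hy, hB] at h1
        linear_combination -h1
      have h3 := H.pow (x / s) 3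
      have h4 := H.neg 1
      rw [H.one] at h4
      rw [h2] at h3
      omega
    · exact NN_two_eq H hs hB h hy

variable {κ T : M}

/-- the multiples of the special point -/
theorem mult (H : HT M hh) (hT : T ≠ 0) (hκ : κ ≠ 0) (hκT : κ * T ^ 3 = T ^ 3 + 1)
    (hhT : hh T = 1) {C : Pt (BB κ)} (hC : C ≠ 0) (hCX : XX κ C = 1) (n : ℕ) (hn : n ≠ 0) :
    n • C ≠ 0 ∧ hh (T * XX κ (n • C)) = n ^ 2 := by
  set s : M := κ / T with hs
  have hs0 : s ≠ 0 := div_ne_zero hκ hT
  have hB : BB κ = s ^ 3 := by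
    rw [hs, BB, div_pow]
    field_simp
    linear_combination hκT
  have key : ∀ P : Pt (BB κ), P ≠ 0 → NN hh s P = hh (T * XX κ P) := by
    intro P hP
    rcases P with _ | ⟨x, y, h⟩
    · exact absurd rfl hP
    · rw [NN_some, XX_some, hs]
      congr 1
      field_simp
  have h1 : NN hh s C = 1 := by rw [key C hC, hCX, mul_one, hhT]
  have h2 := nsmul_eq (NN hh s) (NN_zero s)
    (fun P Q => by
      have := NN_par H hs0 (c := 1) (by rw [hB, mul_one]) P Q
      rw [H.one] at this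
      exact this) C
    (fun n => by
      rw [mul_nsmul, two_nsmul]
      rw [← two_nsmul, ← mul_nsmul, mul_comm, mul_nsmul, two_nsmul]
      exact NN_dbl H hs0 hB _) n
  rw [h1, mul_one] at h2
  have h3 : n • C ≠ 0 := by
    intro h0
    rw [h0, NN_zero] at h2
    exact hn (by
      have : n ^ 2 = 0 := h2.symm
      exact pow_eq_zero_iff (two_ne_zero) |>.mp this)
  exact ⟨h3, by rw [← key _ h3, h2]⟩

/-- different multiples have different cubes of abscissae and squares of ordinates -/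
theorem mult_inj (H : HT M hh) (hT : T ≠ 0) (hκ : κ ≠ 0) (hκT : κ * T ^ 3 = T ^ 3 + 1)
    (hhT : hh T = 1) {C : Pt (BB κ)} (hC : C ≠ 0) (hCX : XX κ C = 1) {n k : ℕ} (hn : n ≠ 0)
    (hk : k ≠ 0) (hnk : n ≠ k) : XX κ (n • C) ≠ XX κ (k • C) ∧
    YY κ (n • C) ^ 2 ≠ YY κ (k • C) ^ 2 := by
  obtain ⟨a1, a2⟩ := mult H hT hκ hκT hhT hC hCX n hn
  obtain ⟨b1, b2⟩ := mult H hT hκ hκT hhT hC hCX k hk
  have key : XX κ (n • C) ^ 3 ≠ XX κ (k • C) ^ 3 := by
    intro h0
    have h1 : (T * XX κ (n • C)) ^ 3 = (T * XX κ (k • C)) ^ 3 := by rw [mul_pow, mul_pow, h0]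
    have h2 := H.pow (T * XX κ (n • C)) 3
    rw [h1, H.pow, a2, b2] at h2
    apply hnk
    have h3 : n ^ 2 = k ^ 2 := by omega
    exact (Nat.pow_left_injective (n := 2) two_ne_zero h3)
  refine ⟨fun h0 => key (by rw [h0]), fun h0 => key ?_⟩
  have h1 := curve hκ _ a1
  have h2 := curve hκ _ b1
  rw [h0, h2] at h1
  linear_combination -h1

/-- nondegeneracy of the points attached to the multiples -/
theorem mult_good (H : HT M hh) (hT : T ≠ 0) (hκ : κ ≠ 0) (hκT : κ * T ^ 3 = T ^ 3 + 1)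
    (hhT : hh T = 1) {C : Pt (BB κ)} (hC : C ≠ 0) (hCX : XX κ C = 1) (hCY : YY κ C = 1)
    {A B : ℕ} (hB : 1 < B) (hA : B < A) : Good (ptc κ (A • C) (B • C)) ∧
    step (ptc κ (A • C) (B • C)) = ptc κ ((A + B) • C) ((B + 1) • C) ∧
    kap (XX κ (B • C)) (tau (XX κ (A • C)) (XX κ (B • C))
      ((YY κ (A • C) - 1) / (YY κ (B • C) - 1))) = κ := by
  have m1 := fun n hn => mult H hT hκ hκT hhT hC hCX n hn
  have m2 := fun {n k : ℕ} (hn : n ≠ 0) (hk : k ≠ 0) (hnk : n ≠ k) =>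
    mult_inj H hT hκ hκT hhT hC hCX hn hk hnk
  have hY : ∀ n : ℕ, 1 < n → YY κ (n • C) ^ 2 ≠ 1 := by
    intro n hn
    have := (m2 (n := n) (k := 1) (by omega) one_ne_zero (by omega)).2
    rwa [one_nsmul, hCY, one_pow] at this
  have hY1 : ∀ n : ℕ, 1 < n → YY κ (n • C) ≠ 1 := fun n hn h0 => hY n hn (by rw [h0, one_pow])
  have hg : Good (ptc κ (A • C) (B • C)) := by
    apply good_of H.two hκ hC hCX hCY (m1 A (by omega)).1 (m1 B (by omega)).1
      (hY1 A (by omega)) (hY1 B hB)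
    · intro h0
      exact hY B hB (by rw [h0]; ring)
    · intro h0
      exact (m2 (n := A) (k := B) (by omega) (by omega) (by omega)).2 (by rw [h0])
    · exact (m2 (n := A) (k := B) (by omega) (by omega) (by omega)).1
    · have := (m2 (n := B) (k := 1) (by omega) one_ne_zero (by omega)).1
      rwa [one_nsmul, hCX] at this
    · have : B • C + C = (B + 1) • C := (succ_nsmul C B).symm
      rw [this]
      exact hY1 (B + 1) (by omega)
  obtain ⟨-, -, -, h4, h5⟩ := ell_step hκ hC hCX hCY (m1 A (by omega)).1 (m1 B (by omega)).1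
    (hY1 B hB) hg
  refine ⟨hg, ?_, h5⟩
  rw [h4, ← add_nsmul, ← succ_nsmul]

end Special

end Pool.Agent.U211.DG
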