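import Mathlib
import Pool.Agent.U211.DG.Inst
import Pool.Agent.U211.DG.Dom

/-!
The rational self-map of projective 3-space whose iterates have degrees of order `n ^ 4`.
-/

set_option autoImplicit false

namespace Pool.Agent.U211.DG

open WeierstrassCurve WeierstrassCurve.Affine
open Pool.Agent.H905R3

universe u

/-! ### the special curve over `K(T)` -/

section Spec

variable {K : Type u} [Field K]

/-- the variable `T` -/
noncomputable def TT (K : Type u) [Field K] : FF K 1 := gen K 1 0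

lemma hh_TT : hh (TT K) = 1 := by
  have h1 : hh (TT K) ≤ 1 := Rep.hh_le (r := TT K) (Rep.var (K := K) (m := 1) 1)
  have h2 : hh (TT K) ≠ 0 := by
    intro h0
    obtain ⟨P, Q, h⟩ := exists_red (TT K)
    rw [h0] at h
    have hc := h.toRep.cross (Rep.var (K := K) (m := 1) 1)
    have hP := MvPolynomial.totalDegree_eq_zero_iff_eq_C.mp
      (Nat.le_zero.mp h.hP.totalDegree_le)
    have hQ := MvPolynomial.totalDegree_eq_zero_iff_eq_C.mp
      (Nat.le_zero.mp h.hQ.totalDegree_le)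
    have h3 := congrArg (MvPolynomial.eval (![0, 1] : Fin 2 → K)) hc
    rw [hP, hQ] at h3
    simp at h3
    apply h.ne
    rw [hQ, ← h3, map_zero]
  omega

lemma TT_ne : TT K ≠ 0 := by
  intro h
  have := hh_TT (K := K)
  rw [h, hh_zero] at this
  exact zero_ne_one this

/-- the parameter of the special curve -/
noncomputable def kT (K : Type u) [Field K] : FF K 1 := (TT K ^ 3 + 1) / TT K ^ 3

lemma kT_mul : kT K * TT K ^ 3 = TT K ^ 3 + 1 := div_mul_cancel₀ _ (pow_ne_zero _ TT_ne)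

lemma kT_ne : kT K ≠ 0 := by
  intro h
  have h1 := kT_mul (K := K)
  rw [h, zero_mul] at h1
  have h2 : TT K ^ 3 = -1 := by linear_combination -h1
  have h3 := hh_pow (TT K) 3
  rw [h2, hh_TT] at h3
  have h4 := hh_neg (1 : FF K 1)
  rw [hh_one] at h4
  omega

lemma kT_ne_one : kT K ≠ 1 := by
  intro h
  have h1 := kT_mul (K := K)
  rw [h, one_mul] at h1
  have h2 : (1 : FF K 1) = 0 := by linear_combination -h1
  exact one_ne_zero h2

end Spec

/-! ### the sequences of the multiples -/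

/-- the second multiple -/
def bn (n : ℕ) : ℕ := n + 3

/-- the first multiple -/
def an : ℕ → ℕ
  | 0 => 6
  | n + 1 => an n + bn n

lemma bn_lt_an (n : ℕ) : bn n < an n := by
  induction n with
  | zero => simp [bn, an]
  | succ n ih => simp only [an, bn] at *; omega

lemma an_ge (n : ℕ) : 2 * an n = n ^ 2 + 5 * n + 12 := by
  induction n with
  | zero => simp [an]
  | succ n ih => rw [an, bn, mul_add, ih]; ring

/-! ### the orbits -/

section Orbits

variable {K : Type u} [Field K] (k2 : (2 : K) ≠ 0) (k3 : (3 : K) ≠ 0)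
include k2 k3

/-- the base point -/
lemma exists_C : ∃ C : Pt (BB (kT K)), C ≠ 0 ∧ XX (kT K) C = 1 ∧ YY (kT K) C = 1 :=
  exists_pt (ht_inst k2 k3).two (ht_inst k2 k3).three kT_ne kT_ne_one (by ring)

/-- the base point -/
noncomputable def CC : Pt (BB (kT K)) := (exists_C k2 k3).choose

lemma CC_ne : CC k2 k3 ≠ 0 := (exists_C k2 k3).choose_spec.1
lemma CC_X : XX (kT K) (CC k2 k3) = 1 := (exists_C k2 k3).choose_spec.2.1
lemma CC_Y : YY (kT K) (CC k2 k3) = 1 := (exists_C k2 k3).choose_spec.2.2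

open Classical in
/-- the special orbit -/
noncomputable def bb (A B : ℕ) : Fin 3 → FF K 1 :=
  ptc (kT K) (A • CC k2 k3) (B • CC k2 k3)

lemma bb_good {A B : ℕ} (hB : 1 < B) (hA : B < A) : Good (bb k2 k3 A B) ∧
    step (bb k2 k3 A B) = bb k2 k3 (A + B) (B + 1) ∧
    kap (bb k2 k3 A B 1) (tau (bb k2 k3 A B 0) (bb k2 k3 A B 1) (bb k2 k3 A B 2)) = kT K := by
  classical
  obtain ⟨h1, h2, h3⟩ := mult_good (ht_inst k2 k3) TT_ne kT_ne kT_mul hh_TT (CC_ne k2 k3)
    (CC_X k2 k3) (CC_Y k2 k3) hB hA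
  exact ⟨h1, h2, h3⟩

lemma bb_hh {A B : ℕ} (hA : A ≠ 0) : A ^ 2 ≤ 1 + hh (bb k2 k3 A B 0) := by
  classical
  obtain ⟨-, h2⟩ := mult (ht_inst k2 k3) TT_ne kT_ne kT_mul hh_TT (CC_ne k2 k3)
    (CC_X k2 k3) A hA
  rw [← h2]
  have := hh_mul (TT K) (XX (kT K) (A • CC k2 k3))
  rw [hh_TT] at this
  exact this

end Orbits

end Pool.Agent.U211.DG
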