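import Mathlib
import Pool.Agent.U211.DG.Inst

/-!
The heights along the orbit of a point under the step are `O(n ^ 4)`.
-/

set_option autoImplicit false

namespace Pool.Agent.U211.DG

open WeierstrassCurve WeierstrassCurve.Affine

/-- triangular numbers -/
def tri : ℕ → ℕ
  | 0 => 0
  | n + 1 => tri n + n

lemma tri_le (n : ℕ) : tri n ≤ n ^ 2 := by
  induction n with
  | zero => simp [tri]
  | succ n ih => rw [tri]; nlinarith

section Abs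

variable {M : Type*} [Field M] [DecidableEq M] {hh : M → ℕ} {κ : M}

/-- first point of the orbit -/
def Pn (P Q C : Pt (BB κ)) (n : ℕ) : Pt (BB κ) := P + n • Q + tri n • C
/-- second point of the orbit -/
def Qn (Q C : Pt (BB κ)) (n : ℕ) : Pt (BB κ) := Q + n • C

lemma Pn_succ (P Q C : Pt (BB κ)) (n : ℕ) : Pn P Q C (n + 1) = Pn P Q C n + Qn Q C n := by
  rw [Pn, Pn, Qn, tri, succ_nsmul, add_nsmul]
  abel

lemma Qn_succ (Q C : Pt (BB κ)) (n : ℕ) : Qn Q C (n + 1) = Qn Q C n + C := by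
  rw [Qn, Qn, succ_nsmul, add_assoc]

theorem orbit_abs (hκ : κ ≠ 0) {C P Q : Pt (BB κ)} (hC : C ≠ 0) (hCX : XX κ C = 1)
    (hCY : YY κ C = 1) (hP : P ≠ 0) (hQ : Q ≠ 0) (hY : YY κ Q ≠ 1) {a : ℕ → Fin 3 → M}
    (h0 : a 0 = ptc κ P Q) (ha : ∀ n, a (n + 1) = step (a n)) (hg : ∀ n, Good (a n)) (n : ℕ) :
    Pn P Q C n ≠ 0 ∧ Qn Q C n ≠ 0 ∧ YY κ (Qn Q C n) ≠ 1 ∧
      a n = ptc κ (Pn P Q C n) (Qn Q C n) := by
  induction n with
  | zero =>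
    have e1 : Pn P Q C 0 = P := by simp [Pn, tri]
    have e2 : Qn Q C 0 = Q := by simp [Qn]
    rw [e1, e2]
    exact ⟨hP, hQ, hY, h0⟩
  | succ n ih =>
    obtain ⟨i1, i2, i3, i4⟩ := ih
    obtain ⟨j1, j2, j3, j4, -⟩ := ell_step hκ hC hCX hCY i1 i2 i3 (by rw [← i4]; exact hg n)
    rw [Pn_succ, Qn_succ]
    exact ⟨j1, j2, j3, by rw [ha, i4, j4]⟩

lemma NN_k (hκ : κ ≠ 0) {P : Pt (BB κ)} (hP : P ≠ 0) : NN hh κ P = hh (XX κ P) := by
  rcases P with _ | ⟨x, y, h⟩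
  · exact absurd rfl hP
  · rfl

/-- height of the ordinate -/
lemma hh_YY (H : HT M hh) (hκ : κ ≠ 0) {P : Pt (BB κ)} (hP : P ≠ 0) :
    hh (YY κ P) ≤ 3 * hh (XX κ P) + hh (κ - 1) + hh κ := by
  have h1 := curve hκ P hP
  have h2 : YY κ P ^ 2 = (XX κ P ^ 3 + (κ - 1)) * κ⁻¹ := by
    field_simp
    linear_combination h1
  have h3 := H.pow (YY κ P) 2
  rw [h2] at h3
  have h4 := H.mul (XX κ P ^ 3 + (κ - 1)) κ⁻¹
  have h5 := H.add (XX κ P ^ 3) (κ - 1)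
  have h6 := H.inv κ
  rw [H.pow] at h5
  omega

/-- height of the third coordinate -/
lemma hh_third (H : HT M hh) (hκ : κ ≠ 0) {P Q : Pt (BB κ)} (hP : P ≠ 0) (hQ : Q ≠ 0) :
    hh (ptc κ P Q 2) ≤ 3 * hh (XX κ P) + 3 * hh (XX κ Q) + 2 * (hh (κ - 1) + hh κ) := by
  have h1 := hh_YY H hκ hP
  have h2 := hh_YY H hκ hQ
  have h3 : ∀ r : M, hh (r - 1) ≤ hh r := by
    intro r
    have := H.add r (-1)
    have h4 := H.neg 1
    rw [H.one] at h4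
    rw [← sub_eq_add_neg] at this
    omega
  have h4 := h3 (YY κ P)
  have h5 := h3 (YY κ Q)
  have h6 := H.mul (YY κ P - 1) (YY κ Q - 1)⁻¹
  have h7 := H.inv (YY κ Q - 1)
  have h8 : ptc κ P Q 2 = (YY κ P - 1) * (YY κ Q - 1)⁻¹ := by
    simp [ptc, div_eq_mul_inv]
  rw [h8]
  omega

theorem bound_abs (H : HT M hh) (hκ : κ ≠ 0) {C P Q : Pt (BB κ)} (hC : C ≠ 0)
    (hCX : XX κ C = 1)
    (hCY : YY κ C = 1) (hP : P ≠ 0) (hQ : Q ≠ 0) (hY : YY κ Q ≠ 1) {a : ℕ → Fin 3 → M}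
    (h0 : a 0 = ptc κ P Q) (ha : ∀ n, a (n + 1) = step (a n)) (hg : ∀ n, Good (a n)) :
    ∃ c : ℕ, ∀ n, hh (a n 0) + hh (a n 1) + hh (a n 2) ≤ c * (n + 1) ^ 4 := by
  set N : Pt (BB κ) → ℕ := NN hh κ with hN
  set e := hh (κ - 1) with he
  have hpar : ∀ P Q : Pt (BB κ), N (P + Q) + N (P - Q) ≤ 2 * N P + 2 * N Q + e :=
    fun P Q => NN_par H hκ rfl P Q
  have hadd : ∀ P Q : Pt (BB κ), N (P + Q) ≤ 2 * N P + 2 * N Q + e := fun P Q => by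
    have := hpar P Q; omega
  have hmul := nsmul_le N e (NN_zero κ) hpar
  set c1 := 8 * N P + 8 * (N Q + e) + 4 * (N C + e) + 8 * e with hc1
  refine ⟨8 * c1 + 2 * (e + hh κ), fun n => ?_⟩
  obtain ⟨i1, i2, i3, i4⟩ := orbit_abs hκ hC hCX hCY hP hQ hY h0 ha hg n
  have b1 : N (Pn P Q C n) ≤ c1 * (n + 1) ^ 4 := by
    have h1 := hadd (P + n • Q) (tri n • C)
    have h2 := hadd P (n • Q)
    have h3 := hmul Q n
    have h4 := hmul C (tri n)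
    have h5 : tri n ^ 2 ≤ (n + 1) ^ 4 := by
      have := Nat.pow_le_pow_left (tri_le n) 2
      calc tri n ^ 2 ≤ (n ^ 2) ^ 2 := this
        _ = n ^ 4 := by ring
        _ ≤ (n + 1) ^ 4 := Nat.pow_le_pow_left (by omega) 4
    have h6 : n ^ 2 ≤ (n + 1) ^ 4 := by
      calc n ^ 2 ≤ (n + 1) ^ 2 := Nat.pow_le_pow_left (by omega) 2
        _ ≤ (n + 1) ^ 4 := Nat.pow_le_pow_right (by omega) (by omega)
    have h7 : 1 ≤ (n + 1) ^ 4 := Nat.one_le_pow _ _ (by omega)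
    have h8 := Nat.mul_le_mul_right (N C + e) h5
    have h9 := Nat.mul_le_mul_right (N Q + e) h6
    have h10 := Nat.mul_le_mul_left (N P) h7
    have h11 := Nat.mul_le_mul_left e h7
    have h12 : N (Pn P Q C n) ≤ 4 * N P + 4 * (n ^ 2 * (N Q + e)) +
        2 * (tri n ^ 2 * (N C + e)) + 3 * e := by
      change N (P + n • Q + tri n • C) ≤ _
      omega
    calc N (Pn P Q C n) ≤ 4 * N P + 4 * (n ^ 2 * (N Q + e)) +
        2 * (tri n ^ 2 * (N C + e)) + 3 * e := h12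
      _ ≤ 4 * (N P * (n + 1) ^ 4) + 4 * ((n + 1) ^ 4 * (N Q + e)) +
        2 * ((n + 1) ^ 4 * (N C + e)) + 3 * (e * (n + 1) ^ 4) := by omega
      _ ≤ c1 * (n + 1) ^ 4 := by
        rw [hc1]
        nlinarith [Nat.zero_le (N P * (n + 1) ^ 4), Nat.zero_le ((n + 1) ^ 4 * (N Q + e)),
          Nat.zero_le ((n + 1) ^ 4 * (N C + e)), Nat.zero_le (e * (n + 1) ^ 4)]
  have b2 : N (Qn Q C n) ≤ c1 * (n + 1) ^ 4 := by
    have h1 := hadd Q (n • C)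
    have h4 := hmul C n
    have h6 : n ^ 2 ≤ (n + 1) ^ 4 := by
      calc n ^ 2 ≤ (n + 1) ^ 2 := Nat.pow_le_pow_left (by omega) 2
        _ ≤ (n + 1) ^ 4 := Nat.pow_le_pow_right (by omega) (by omega)
    have h7 : 1 ≤ (n + 1) ^ 4 := Nat.one_le_pow _ _ (by omega)
    have h9 := Nat.mul_le_mul_right (N C + e) h6
    have h10 := Nat.mul_le_mul_left (N Q) h7
    have h11 := Nat.mul_le_mul_left e h7
    have h12 : N (Qn Q C n) ≤ 2 * N Q + 2 * (n ^ 2 * (N C + e)) + e := by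
      change N (Q + n • C) ≤ _
      omega
    calc N (Qn Q C n) ≤ 2 * N Q + 2 * (n ^ 2 * (N C + e)) + e := h12
      _ ≤ 2 * (N Q * (n + 1) ^ 4) + 2 * ((n + 1) ^ 4 * (N C + e)) + e * (n + 1) ^ 4 := by omega
      _ ≤ c1 * (n + 1) ^ 4 := by
        rw [hc1]
        nlinarith [Nat.zero_le (N P * (n + 1) ^ 4), Nat.zero_le ((n + 1) ^ 4 * N Q),
          Nat.zero_le ((n + 1) ^ 4 * (N C + e)), Nat.zero_le (e * (n + 1) ^ 4)]
  rw [hN, NN_k hκ i1] at b1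
  rw [hN, NN_k hκ i2] at b2
  have b3 := hh_third H hκ i1 i2
  rw [← i4] at b3
  have e0 : a n 0 = XX κ (Pn P Q C n) := by rw [i4]; rfl
  have e1 : a n 1 = XX κ (Qn Q C n) := by rw [i4]; rfl
  rw [e0, e1]
  have h7 : 1 ≤ (n + 1) ^ 4 := Nat.one_le_pow _ _ (by omega)
  have h8 := Nat.mul_le_mul_left (2 * (e + hh κ)) h7
  have h9 : (8 * c1 + 2 * (e + hh κ)) * (n + 1) ^ 4 = 8 * (c1 * (n + 1) ^ 4) +
    2 * (e + hh κ) * (n + 1) ^ 4 := by ring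
  rw [h9]
  omega

end Abs

end Pool.Agent.U211.DG
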