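import Mathlib
import Pool.Agent.U211.DG.Main
import Pool.Agent.U211.DG.Upper

/-!
The rational self-map of projective 3-space: its generic orbit, its dominance and the two bounds
for the degrees of its iterates.
-/

set_option autoImplicit false

namespace Pool.Agent.U211.DG

open WeierstrassCurve WeierstrassCurve.Affine
open Pool.Agent.H905R3

universe u

variable {K : Type u} [Field K]

/-- the coordinates of a point, in the big field -/
def co {m : ℕ} (a : Fin 3 → FF K m) : Fin 3 → LL K m := fun i => (a i : LL K m)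

/-- the orbit of the special point -/
noncomputable def bs (k2 : (2 : K) ≠ 0) (k3 : (3 : K) ≠ 0) (n : ℕ) : Fin 3 → FF K 1 :=
  bb k2 k3 (an n) (bn n)

/-- the orbit of the generic point -/
noncomputable def gs (K : Type u) [Field K] : ℕ → Fin 3 → FF K 3
  | 0 => gen K 3
  | n + 1 => step (gs K n)

/-- evaluating at a point of affine space -/
lemma ev_gen {m : ℕ} (c : Fin 3 → FF K m) (i : Fin 3) :
    Ev (Fin.cons 1 (co c) : Fin 4 → LL K m) (gen K 3 i) (c i) := by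
  have := EvalsTo.var (K := K) (m := 3) (a := (Fin.cons 1 (co c) : Fin 4 → LL K m)) i.succ
    (by simp)
  rw [Fin.cons_succ, Fin.cons_zero, div_one] at this
  exact this

section

variable (k2 : (2 : K) ≠ 0) (k3 : (3 : K) ≠ 0)
include k2 k3

lemma bs_good (n : ℕ) : Good (bs k2 k3 n) ∧ step (bs k2 k3 n) = bs k2 k3 (n + 1) := by
  obtain ⟨h1, h2, -⟩ := bb_good k2 k3 (A := an n) (B := bn n) (by simp [bn]) (bn_lt_an n)
  exact ⟨h1, h2⟩

/-- the generic orbit specialises to the special orbit -/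
lemma gs_ev (n : ℕ) : ∀ i, Ev (Fin.cons 1 (co (bs k2 k3 0)) : Fin 4 → LL K 1)
    (gs K n i) (bs k2 k3 n i) := by
  induction n with
  | zero => exact ev_gen _
  | succ n ih =>
    obtain ⟨h1, h2⟩ := bs_good k2 k3 n
    have := ((ev_rel _).step ih h1).2
    rw [h2] at this
    exact this

lemma gs_good (n : ℕ) : Good (gs K n) :=
  ((ev_rel _).step (gs_ev k2 k3 n) (bs_good k2 k3 n).1).1

/-- data of the generic point -/
lemma generic_data : ∃ κ : FF K 3, κ ≠ 0 ∧ κ ≠ 1 ∧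
    κ = kap (gen K 3 1) (tau (gen K 3 0) (gen K 3 1) (gen K 3 2)) ∧
    κ * (1 + tau (gen K 3 0) (gen K 3 1) (gen K 3 2)) ^ 2 = gen K 3 1 ^ 3 + κ - 1 ∧
    κ * (1 + gen K 3 2 * tau (gen K 3 0) (gen K 3 1) (gen K 3 2)) ^ 2 =
      gen K 3 0 ^ 3 + κ - 1 ∧ tau (gen K 3 0) (gen K 3 1) (gen K 3 2) ≠ 0 := by
  have hg := gs_good k2 k3 0
  have hev := gs_ev k2 k3 0
  have E := ev_rel (K := K) (m := 3) (Fin.cons 1 (co (bs k2 k3 0)) : Fin 4 → LL K 1)
  have hb := (bs_good k2 k3 0).1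
  have hk : Ev (Fin.cons 1 (co (bs k2 k3 0)) : Fin 4 → LL K 1)
      (kap (gen K 3 1) (tau (gen K 3 0) (gen K 3 1) (gen K 3 2))) (kT K) := by
    have := E.kap (hev 1) (E.tau (hev 0) (hev 1) (hev 2) hb.g1) hb.g2
    have e := (bb_good k2 k3 (A := an 0) (B := bn 0) (by simp [bn]) (bn_lt_an 0)).2.2
    rw [bs, e] at this
    exact this
  refine ⟨_, E.ne hk kT_ne, ?_, rfl, (curve_of_good hg).1, (curve_of_good hg).2,
    left_ne_zero_of_mul hg.g2⟩
  have := E.ne (E.sub hk E.one) (sub_ne_zero.mpr kT_ne_one)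
  exact sub_ne_zero.mp this

/-- the heights along the generic orbit -/
theorem gs_upper : ∃ c : ℕ, ∀ n, hh (gs K n 0) + hh (gs K n 1) + hh (gs K n 2) ≤
    c * (n + 1) ^ 4 := by
  classical
  obtain ⟨κ, hκ, hκ1, -, h2, h1, ht⟩ := generic_data k2 k3
  have H := ht_inst (m := 3) k2 k3
  obtain ⟨C, hC, hCX, hCY⟩ := exists_pt (κ := κ) (u := 1) (v := 1) H.two H.three hκ hκ1
    (by ring)
  obtain ⟨P, hP, hPX, hPY⟩ := exists_pt H.two H.three hκ hκ1 h1
  obtain ⟨Q, hQ, hQX, hQY⟩ := exists_pt H.two H.three hκ hκ1 h2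
  have h0 : gs K 0 = ptc κ P Q := by
    funext i
    fin_cases i
    · exact hPX.symm
    · exact hQX.symm
    · change gen K 3 2 = (YY κ P - 1) / (YY κ Q - 1)
      rw [hPY, hQY, add_sub_cancel_left, add_sub_cancel_left, mul_div_cancel_right₀ _ ht]
  exact bound_abs H hκ hC hCX hCY hP hQ
    (by rw [hQY]; intro h; exact ht (by linear_combination h)) h0 (fun n => rfl)
    (gs_good k2 k3)

/-- the map -/
theorem exists_map : ∃ f : RatMap K 3, f.Dominant ∧
    (∀ n, Img f (co (gs K n)) (co (gs K (n + 1)))) ∧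
    (∀ n, Img f (co (bs k2 k3 n)) (co (bs k2 k3 (n + 1)))) := by
  classical
  obtain ⟨f, hf⟩ := exists_ratMap (K := K) (N := 3) (step (gen K 3))
  have hf' : ∀ {m : ℕ} (c : Fin 3 → FF K m), Good c → Img f (co c) (co (step c)) := by
    intro m c hc
    exact hf (LL K m) (Fin.cons 1 (co c)) (co (step c))
      ((ev_rel (Fin.cons 1 (co c) : Fin 4 → LL K m)).step (ev_gen c) hc).2
  have hgs : ∀ n, Img f (co (gs K n)) (co (gs K (n + 1))) := fun n =>
    hf' (gs K n) (gs_good k2 k3 n)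
  have hbs : ∀ n, Img f (co (bs k2 k3 n)) (co (bs k2 k3 (n + 1))) := fun n => by
    obtain ⟨h1, h2⟩ := bs_good k2 k3 n
    rw [← h2]
    exact hf' _ h1
  refine ⟨f, ?_, hgs, hbs⟩
  -- the degree is positive
  have hd : f.degree ≠ 0 := by
    intro h0
    obtain ⟨e, he⟩ := height_img (bs k2 k3 0)
    have h1 := he f (bs k2 k3 1) (hbs 0) 0
    rw [h0, mul_zero] at h1
    have h2 := bb_hh k2 k3 (A := an 1) (B := bn 1) (by simp [an, bn])
    have h3 : hh (bb k2 k3 (an 1) (bn 1) 0) ≤ 0 := h1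
    have h4 : an 1 = 9 := by simp [an, bn]
    rw [h4] at h2 h3
    omega
  -- a generic value
  obtain ⟨κ, hκ, hκ1, hκe, h2, h1, ht⟩ := generic_data k2 k3
  have H := ht_inst (m := 3) k2 k3
  have H1 := ht_inst (m := 1) k2 k3
  obtain ⟨C, hC, hCX, hCY⟩ := exists_pt (κ := κ) (u := 1) (v := 1) H.two H.three hκ hκ1
    (by ring)
  obtain ⟨P, hP, hPX, hPY⟩ := exists_pt H.two H.three hκ hκ1 h1
  obtain ⟨Q, hQ, hQX, hQY⟩ := exists_pt H.two H.three hκ hκ1 h2
  have E := ev_rel (K := K) (m := 3) (Fin.cons 1 (co (bs k2 k3 0)) : Fin 4 → LL K 1)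
  have hev := gs_ev k2 k3 0
  have hg := gs_good k2 k3 0
  have hb := (bs_good k2 k3 0).1
  have kt := (bb_good k2 k3 (A := an 0) (B := bn 0) (by simp [bn]) (bn_lt_an 0)).2.2
  -- the special situation
  have C1 := CC_ne k2 k3
  have m1 := fun n hn => mult H1 TT_ne kT_ne kT_mul hh_TT C1 (CC_X k2 k3) n hn
  have m2 := fun {n k : ℕ} (hn : n ≠ 0) (hk : k ≠ 0) (hnk : n ≠ k) =>
    mult_inj H1 TT_ne kT_ne kT_mul hh_TT C1 (CC_X k2 k3) hn hk hnk
  have s3 : (3 : ℕ) • CC k2 k3 - CC k2 k3 = 2 • CC k2 k3 := by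
    rw [succ_nsmul, add_sub_cancel_right]
  have s6 : (6 : ℕ) • CC k2 k3 - 2 • CC k2 k3 = 4 • CC k2 k3 := by
    have : (6 : ℕ) = 4 + 2 := rfl
    rw [this, add_nsmul, add_sub_cancel_right]
  have tb : tau (bs k2 k3 0 0) (bs k2 k3 0 1) (bs k2 k3 0 2) =
      YY (kT K) ((3 : ℕ) • CC k2 k3) - 1 := by
    have hY2 : YY (kT K) ((3 : ℕ) • CC k2 k3) ≠ 1 := by
      intro h
      have := (m2 (n := 3) (k := 1) (by omega) (by omega) (by omega)).2
      rw [one_nsmul, CC_Y, h] at this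
      exact this rfl
    exact tau_val (curve kT_ne _ (m1 6 (by omega)).1) (curve kT_ne _ (m1 3 (by omega)).1) hY2
      hb.g1
  obtain ⟨-, -, eb, eb'⟩ := ell_back kT_ne C1 (CC_X k2 k3) (CC_Y k2 k3) (m1 6 (by omega)).1
    (m1 3 (by omega)).1
    (by
      have := (m2 (n := 3) (k := 1) (by omega) (by omega) (by omega)).1
      rwa [one_nsmul, CC_X] at this)
    (by
      rw [s3]
      exact (m2 (n := 6) (k := 2) (by omega) (by omega) (by omega)).1)
  rw [s3] at eb eb'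
  rw [s6] at eb
  have hback : back (bs k2 k3 0) = bb k2 k3 4 2 := by
    have e1 : 1 + tau (bs k2 k3 0 0) (bs k2 k3 0 1) (bs k2 k3 0 2) =
        YY (kT K) ((3 : ℕ) • CC k2 k3) := by rw [tb]; ring
    have e2 : 1 + bs k2 k3 0 2 * tau (bs k2 k3 0 0) (bs k2 k3 0 1) (bs k2 k3 0 2) =
        YY (kT K) ((6 : ℕ) • CC k2 k3) := by
      have hd : YY (kT K) ((3 : ℕ) • CC k2 k3) - 1 ≠ 0 := by
        rw [← tb]; exact left_ne_zero_of_mul hb.g2
      have e3 : bs k2 k3 0 2 = (YY (kT K) ((6 : ℕ) • CC k2 k3) - 1) /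
        (YY (kT K) ((3 : ℕ) • CC k2 k3) - 1) := rfl
      rw [tb, e3, div_mul_cancel₀ _ hd]
      ring
    rw [back, e1, e2]
    have e4 : kap (bs k2 k3 0 1) (tau (bs k2 k3 0 0) (bs k2 k3 0 1) (bs k2 k3 0 2)) = kT K := kt
    rw [e4]
    exact eb
  have hg42 := (bb_good k2 k3 (A := 4) (B := 2) (by omega) (by omega)).1
  have hb1 : bs k2 k3 0 0 - back (bs k2 k3 0) 1 ≠ 0 := by
    rw [hback]
    exact sub_ne_zero.mpr (m2 (n := 6) (k := 2) (by omega) (by omega) (by omega)).1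
  have hYb : addY (kT K) (bs k2 k3 0 1) (YY (kT K) ((3 : ℕ) • CC k2 k3)) 1 (-1) - 1 ≠ 0 := by
    have e3 : bs k2 k3 0 1 = XX (kT K) ((3 : ℕ) • CC k2 k3) := rfl
    rw [e3, ← eb']
    intro h
    have := (m2 (n := 2) (k := 1) (by omega) (by omega) (by omega)).2
    rw [one_nsmul, CC_Y, sub_eq_zero.mp h] at this
    exact this rfl
  have hYb' : addY (kap (bs k2 k3 0 1) (tau (bs k2 k3 0 0) (bs k2 k3 0 1) (bs k2 k3 0 2)))
      (bs k2 k3 0 1) (1 + tau (bs k2 k3 0 0) (bs k2 k3 0 1) (bs k2 k3 0 2)) 1 (-1) - 1 ≠ 0 := by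
    have e1 : 1 + tau (bs k2 k3 0 0) (bs k2 k3 0 1) (bs k2 k3 0 2) =
        YY (kT K) ((3 : ℕ) • CC k2 k3) := by rw [tb]; ring
    have e4 : kap (bs k2 k3 0 1) (tau (bs k2 k3 0 0) (bs k2 k3 0 1) (bs k2 k3 0 2)) = kT K := kt
    rw [e1, e4]
    exact hYb
  have evb := E.back hev hb hb1 hYb'
  rw [hback] at evb
  have hgb : Good (back (gen K 3)) := (E.step evb hg42).1
  -- the generic situation
  have hX : XX κ Q ≠ 1 := by rw [hQX]; exact sub_ne_zero.mp hg.g4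
  have e1 : back (gen K 3) = backA κ (XX κ P) (YY κ P) (XX κ Q) (YY κ Q) := by
    rw [back, hPX, hPY, hQX, hQY, hκe]
  have hX2 : XX κ P ≠ XX κ (Q - C) := by
    have e2 : XX κ (Q - C) = back (gen K 3) 1 := by
      rw [e1]
      obtain ⟨-, a2, -⟩ := add_scaled hκ Q (-C) hQ (neg_ne_zero.mpr hC) (by
        rw [XX_neg, hCX]; exact hX)
      rw [← sub_eq_add_neg, XX_neg, YY_neg, hCX, hCY] at a2
      rw [a2]
      rfl
    rw [e2, hPX]
    have h3 : bs k2 k3 0 0 - bb k2 k3 4 2 1 ≠ 0 := by rw [← hback]; exact hb1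
    exact sub_ne_zero.mp (E.ne (E.sub (hev 0) (evb 1)) h3)
  obtain ⟨q1, q2, q3, q4⟩ := ell_back hκ hC hCX hCY hP hQ hX hX2
  have hY : YY κ (Q - C) ≠ 1 := by
    rw [q4]
    have e5 : Ev (Fin.cons 1 (co (bs k2 k3 0)) : Fin 4 → LL K 1)
        (addY κ (XX κ Q) (YY κ Q) 1 (-1) - 1)
        (addY (kap (bs k2 k3 0 1) (tau (bs k2 k3 0 0) (bs k2 k3 0 1) (bs k2 k3 0 2)))
      (bs k2 k3 0 1) (1 + tau (bs k2 k3 0 0) (bs k2 k3 0 1) (bs k2 k3 0 2)) 1 (-1) - 1) := by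
      rw [hQX, hQY, hκe]
      have ht' := E.tau (hev 0) (hev 1) (hev 2) hb.g1
      exact E.sub (E.addY (E.kap (hev 1) ht' hb.g2) (hev 1) (E.add E.one ht') E.one
        (E.neg E.one) hb.g4) E.one
    exact sub_ne_zero.mp (E.ne e5 hYb')
  have hback2 : back (gen K 3) = ptc κ (P - (Q - C)) (Q - C) := by rw [e1, q3]
  obtain ⟨-, -, -, q5, -⟩ := ell_step hκ hC hCX hCY q2 q1 hY (by rw [← hback2]; exact hgb)
  have hstep : step (back (gen K 3)) = gen K 3 := by
    rw [hback2, q5, sub_add_cancel, sub_add_cancel]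
    funext i
    fin_cases i
    · exact hPX
    · exact hQX
    · change (YY κ P - 1) / (YY κ Q - 1) = gen K 3 2
      rw [hPY, hQY, add_sub_cancel_left, add_sub_cancel_left, mul_div_cancel_right₀ _ ht]
  have himg := hf' (back (gen K 3)) hgb
  rw [hstep] at himg
  exact dominant_of_img f hd _ himg

end

end Pool.Agent.U211.DG
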